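import Mathlib

set_option autoImplicit false

/-! # Circle means of `|A|² Re W` with `W` in the half plane

For `f`, `g` holomorphic in the unit disc, `X(r) = ∫ f conj g` over `|w| = r` has the derivative
`2 ∫ f conj (e^{iθ} g')`. Hence `Re ∫ W e^{iθ} A' conj A ≥ 0` if `Re W ≥ 0`, and the mean of `|A|² Re W`
grows at most like four times the mean of `Re W |A| |A'|`. -/

namespace Pool.Agent.H7.SM

open Complex Metric Set Filter Topology MeasureTheory

/-- The point `r e^{iθ}`. -/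
noncomputable def pt (r θ : ℝ) : ℂ := circleMap 0 r θ

theorem norm_pt (r θ : ℝ) (hr : 0 ≤ r) : ‖pt r θ‖ = r := by
  rw [pt, norm_circleMap_zero, abs_of_nonneg hr]

theorem norm_pt' (r θ : ℝ) : ‖pt r θ‖ = |r| := by
  rw [pt, norm_circleMap_zero]

theorem pt_eq (r θ : ℝ) : pt r θ = (r : ℂ) * pt 1 θ := by
  simp [pt, circleMap]

theorem pt_cont : Continuous fun q : ℝ × ℝ => pt q.1 q.2 := by
  unfold pt circleMap
  fun_prop

theorem pt_d1 (r θ : ℝ) : HasDerivAt (fun r : ℝ => pt r θ) (pt 1 θ) r := by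
  have h : HasDerivAt (fun r : ℝ => (r : ℂ) * pt 1 θ) (1 * pt 1 θ) r := by
    have h1 : HasDerivAt (fun r : ℝ => (r : ℂ)) 1 r := by
      simpa using (hasDerivAt_id r).ofReal_comp
    exact h1.mul_const _
  rw [one_mul] at h
  refine h.congr_of_eventuallyEq (Eventually.of_forall fun x => pt_eq x θ)

theorem pt_d2 (r θ : ℝ) : HasDerivAt (fun θ : ℝ => pt r θ) (I * (r * pt 1 θ)) θ := by
  have h := hasDerivAt_circleMap 0 r θ
  refine h.congr_deriv ?_
  rw [← pt_eq, pt]
  ring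

theorem pt_per (r θ : ℝ) : pt r (θ + 2 * Real.pi) = pt r θ := periodic_circleMap 0 r θ

theorem conj_d {f : ℝ → ℂ} {f' : ℂ} {x : ℝ} (h : HasDerivAt f f' x) :
    HasDerivAt (fun x => (starRingEnd ℂ) (f x)) ((starRingEnd ℂ) f') x := by
  have := (Complex.conjCLE.toContinuousLinearMap.hasFDerivAt (x := f x)).comp_hasDerivAt x h
  exact this

/-- differentiation under the integral sign -/
theorem hasDerivAt_int {E : Type*} [NormedAddCommGroup E] [NormedSpace ℝ E] [CompleteSpace E]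
    {F F' : ℝ → ℝ → E} {U : Set ℝ} (hU : IsOpen U)
    (hF : ContinuousOn (Function.uncurry F) (U ×ˢ univ))
    (hF' : ContinuousOn (Function.uncurry F') (U ×ˢ univ))
    (hd : ∀ s ∈ U, ∀ θ, HasDerivAt (fun s => F s θ) (F' s θ) s) {s₀ : ℝ} (hs : s₀ ∈ U) (a b : ℝ) :
    HasDerivAt (fun s => ∫ θ in a..b, F s θ) (∫ θ in a..b, F' s₀ θ) s₀ := by
  obtain ⟨ε, hε, hεU⟩ := Metric.isOpen_iff.1 hU s₀ hs
  have hsub : closedBall s₀ (ε / 2) ⊆ U := (closedBall_subset_ball (by linarith)).trans hεU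
  have hcomp : IsCompact (closedBall s₀ (ε / 2) ×ˢ uIcc a b) :=
    (isCompact_closedBall _ _).prod isCompact_uIcc
  obtain ⟨B, hB⟩ := hcomp.exists_bound_of_continuousOn
    (hF'.mono (prod_mono hsub (subset_univ _)))
  have hcont : ∀ {f : ℝ → ℝ → E}, ContinuousOn (Function.uncurry f) (U ×ˢ univ) → ∀ s ∈ U,
      Continuous (f s) := by
    intro f hf s hs
    rw [← continuousOn_univ]
    exact hf.comp (continuousOn_const.prodMk continuousOn_id) (fun θ _ => ⟨hs, mem_univ _⟩)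
  refine (intervalIntegral.hasDerivAt_integral_of_dominated_loc_of_deriv_le
    (s := ball s₀ (ε / 2)) (bound := fun _ => B) (ball_mem_nhds _ (by linarith)) ?_ ?_ ?_ ?_ ?_ ?_).2
  · filter_upwards [hU.mem_nhds hs] with s hs
    exact (hcont hF s hs).aestronglyMeasurable
  · exact (hcont hF s₀ hs).intervalIntegrable _ _
  · exact (hcont hF' s₀ hs).aestronglyMeasurable
  · refine Eventually.of_forall fun θ hθ s hs => ?_
    exact hB (s, θ) ⟨ball_subset_closedBall hs, uIoc_subset_uIcc hθ⟩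
  · exact intervalIntegrable_const
  · refine Eventually.of_forall fun θ _ s hs => ?_
    exact hd s (hsub (ball_subset_closedBall hs)) θ

theorem contOn_pt {f : ℂ → ℂ} (hf : DifferentiableOn ℂ f (ball 0 1)) :
    ContinuousOn (fun q : ℝ × ℝ => f (pt q.1 q.2)) (Ioo (-1) 1 ×ˢ univ) := by
  apply hf.continuousOn.comp pt_cont.continuousOn
  intro q hq
  rw [mem_ball_zero_iff, norm_pt', abs_lt]
  exact hq.1

theorem cont_pt {f : ℂ → ℂ} (hf : DifferentiableOn ℂ f (ball 0 1)) {r : ℝ} (hr : r ∈ Ioo (-1 : ℝ) 1) :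
    Continuous fun θ : ℝ => f (pt r θ) := by
  apply hf.continuousOn.comp_continuous
  · exact pt_cont.comp (continuous_const.prodMk continuous_id)
  · intro θ
    rw [mem_ball_zero_iff, norm_pt', abs_lt]
    exact hr

theorem mem_pt {r : ℝ} (hr : r ∈ Ioo (-1 : ℝ) 1) (θ : ℝ) : pt r θ ∈ ball (0 : ℂ) 1 := by
  rw [mem_ball_zero_iff, norm_pt', abs_lt]
  exact hr

theorem d_r {f : ℂ → ℂ} (hf : DifferentiableOn ℂ f (ball 0 1)) {r : ℝ} (hr : r ∈ Ioo (-1 : ℝ) 1)
    (θ : ℝ) : HasDerivAt (fun r => f (pt r θ)) (deriv f (pt r θ) * pt 1 θ) r :=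
  ((hf.differentiableAt (isOpen_ball.mem_nhds (mem_pt hr θ))).hasDerivAt).comp r (pt_d1 r θ)

theorem d_θ {f : ℂ → ℂ} (hf : DifferentiableOn ℂ f (ball 0 1)) {r : ℝ} (hr : r ∈ Ioo (-1 : ℝ) 1)
    (θ : ℝ) : HasDerivAt (fun θ => f (pt r θ)) (deriv f (pt r θ) * (I * (r * pt 1 θ))) θ :=
  ((hf.differentiableAt (isOpen_ball.mem_nhds (mem_pt hr θ))).hasDerivAt).comp θ (pt_d2 r θ)

/-- the derivative of `∫ f conj g` over circles -/
theorem deriv_pair {f g : ℂ → ℂ} (hf : DifferentiableOn ℂ f (ball 0 1))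
    (hg : DifferentiableOn ℂ g (ball 0 1)) {r : ℝ} (hr0 : 0 < r) (hr1 : r < 1) :
    HasDerivAt (fun r => ∫ θ in (0 : ℝ)..(2 * Real.pi), f (pt r θ) * (starRingEnd ℂ) (g (pt r θ)))
      (2 * ∫ θ in (0 : ℝ)..(2 * Real.pi),
        f (pt r θ) * (starRingEnd ℂ) (deriv g (pt r θ) * pt 1 θ)) r := by
  have hr : r ∈ Ioo (-1 : ℝ) 1 := ⟨by linarith, hr1⟩
  have hf' : DifferentiableOn ℂ (deriv f) (ball 0 1) := hf.deriv isOpen_ball
  have hg' : DifferentiableOn ℂ (deriv g) (ball 0 1) := hg.deriv isOpen_ball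
  have c1 : Continuous fun q : ℝ × ℝ => pt 1 q.2 := pt_cont.comp (continuous_const.prodMk continuous_snd)
  have h1 : HasDerivAt (fun r => ∫ θ in (0 : ℝ)..(2 * Real.pi),
      f (pt r θ) * (starRingEnd ℂ) (g (pt r θ)))
      (∫ θ in (0 : ℝ)..(2 * Real.pi), (deriv f (pt r θ) * pt 1 θ * (starRingEnd ℂ) (g (pt r θ)) +
        f (pt r θ) * (starRingEnd ℂ) (deriv g (pt r θ) * pt 1 θ))) r := by
    apply hasDerivAt_int (U := Ioo (-1) 1) isOpen_Ioo _ _ _ hr
    · exact (contOn_pt hf).mul (Complex.continuous_conj.comp_continuousOn (contOn_pt hg))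
    · apply ContinuousOn.add
      · exact ((contOn_pt hf').mul c1.continuousOn).mul
          (Complex.continuous_conj.comp_continuousOn (contOn_pt hg))
      · exact (contOn_pt hf).mul (Complex.continuous_conj.comp_continuousOn
          ((contOn_pt hg').mul c1.continuousOn))
    · intro s hs θ
      exact (d_r hf hs θ).mul (conj_d (d_r hg hs θ))
  -- integration by parts in the angle
  have cf := cont_pt hf hr
  have cg := cont_pt hg hr
  have cf' := cont_pt hf' hr
  have cg' := cont_pt hg' hr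
  have cp : Continuous fun θ : ℝ => pt 1 θ := pt_cont.comp (continuous_const.prodMk continuous_id)
  have i1 : IntervalIntegrable (fun θ : ℝ => deriv f (pt r θ) * pt 1 θ *
      (starRingEnd ℂ) (g (pt r θ))) volume 0 (2 * Real.pi) :=
    ((cf'.mul cp).mul (Complex.continuous_conj.comp cg)).intervalIntegrable _ _
  have i2 : IntervalIntegrable (fun θ : ℝ => f (pt r θ) *
      (starRingEnd ℂ) (deriv g (pt r θ) * pt 1 θ)) volume 0 (2 * Real.pi) :=
    (cf.mul (Complex.continuous_conj.comp (cg'.mul cp))).intervalIntegrable _ _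
  have h2 : ∫ θ in (0 : ℝ)..(2 * Real.pi), (I * r) * (deriv f (pt r θ) * pt 1 θ *
      (starRingEnd ℂ) (g (pt r θ)) - f (pt r θ) * (starRingEnd ℂ) (deriv g (pt r θ) * pt 1 θ)) = 0 := by
    have h3 := intervalIntegral.integral_eq_sub_of_hasDerivAt
      (f := fun θ : ℝ => f (pt r θ) * (starRingEnd ℂ) (g (pt r θ)))
      (f' := fun θ : ℝ => (I * r) * (deriv f (pt r θ) * pt 1 θ *
      (starRingEnd ℂ) (g (pt r θ)) - f (pt r θ) * (starRingEnd ℂ) (deriv g (pt r θ) * pt 1 θ)))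
      (a := 0) (b := 2 * Real.pi) (fun θ _ => by
        refine ((d_θ hf hr θ).mul (conj_d (d_θ hg hr θ))).congr_deriv ?_
        simp only [map_mul, Complex.conj_I, Complex.conj_ofReal]
        ring) ?_
    · rw [h3]
      have := pt_per r 0
      rw [zero_add] at this
      rw [this, sub_self]
    · exact (continuous_const.mul (((cf'.mul cp).mul (Complex.continuous_conj.comp cg)).sub
        (cf.mul (Complex.continuous_conj.comp (cg'.mul cp))))).intervalIntegrable _ _
  rw [intervalIntegral.integral_const_mul, intervalIntegral.integral_sub i1 i2] at h2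
  have hI : (I * (r : ℂ)) ≠ 0 := mul_ne_zero I_ne_zero (by exact_mod_cast hr0.ne')
  have h4 := (mul_eq_zero.1 h2).resolve_left hI
  rw [intervalIntegral.integral_add i1 i2, sub_eq_zero.1 h4, ← two_mul] at h1
  exact h1

theorem re_d {f : ℝ → ℂ} {f' : ℂ} {x : ℝ} (h : HasDerivAt f f' x) :
    HasDerivAt (fun x => (f x).re) f'.re x := reCLM.hasFDerivAt.comp_hasDerivAt x h

theorem int_re {f : ℝ → ℂ} {a b : ℝ} (hf : Continuous f) :
    ∫ θ in a..b, (f θ).re = (∫ θ in a..b, f θ).re := by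
  have := reCLM.intervalIntegral_comp_comm (hf.intervalIntegrable (μ := volume) a b)
  simpa using this

theorem contOn_int {f g : ℂ → ℂ} (hf : DifferentiableOn ℂ f (ball 0 1))
    (hg : DifferentiableOn ℂ g (ball 0 1)) : ContinuousOn (fun r => ∫ θ in (0 : ℝ)..(2 * Real.pi),
      f (pt r θ) * (starRingEnd ℂ) (g (pt r θ))) (Ico 0 1) := by
  have hf' : DifferentiableOn ℂ (deriv f) (ball 0 1) := hf.deriv isOpen_ball
  have hg' : DifferentiableOn ℂ (deriv g) (ball 0 1) := hg.deriv isOpen_ball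
  have c1 : Continuous fun q : ℝ × ℝ => pt 1 q.2 := pt_cont.comp (continuous_const.prodMk continuous_snd)
  intro r hr
  have hr' : r ∈ Ioo (-1 : ℝ) 1 := ⟨by linarith [hr.1], hr.2⟩
  have h1 : HasDerivAt (fun r => ∫ θ in (0 : ℝ)..(2 * Real.pi),
      f (pt r θ) * (starRingEnd ℂ) (g (pt r θ)))
      (∫ θ in (0 : ℝ)..(2 * Real.pi), (deriv f (pt r θ) * pt 1 θ * (starRingEnd ℂ) (g (pt r θ)) +
        f (pt r θ) * (starRingEnd ℂ) (deriv g (pt r θ) * pt 1 θ))) r := by
    apply hasDerivAt_int (U := Ioo (-1) 1) isOpen_Ioo _ _ _ hr'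
    · exact (contOn_pt hf).mul (Complex.continuous_conj.comp_continuousOn (contOn_pt hg))
    · apply ContinuousOn.add
      · exact ((contOn_pt hf').mul c1.continuousOn).mul
          (Complex.continuous_conj.comp_continuousOn (contOn_pt hg))
      · exact (contOn_pt hf).mul (Complex.continuous_conj.comp_continuousOn
          ((contOn_pt hg').mul c1.continuousOn))
    · intro s hs θ
      exact (d_r hf hs θ).mul (conj_d (d_r hg hs θ))
  exact h1.continuousAt.continuousWithinAt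

/-- `Re ∫ W e^{iθ} A' conj A ≥ 0` -/
theorem pos {A W : ℂ → ℂ} (hA : DifferentiableOn ℂ A (ball 0 1))
    (hW : DifferentiableOn ℂ W (ball 0 1)) (hpos : ∀ w ∈ ball (0 : ℂ) 1, 0 ≤ (W w).re) {r : ℝ}
    (hr0 : 0 < r) (hr1 : r < 1) :
    0 ≤ (∫ θ in (0 : ℝ)..(2 * Real.pi), W (pt r θ) * (deriv A (pt r θ) * pt 1 θ) *
      (starRingEnd ℂ) (A (pt r θ))).re := by
  have hA' : DifferentiableOn ℂ (deriv A) (ball 0 1) := hA.deriv isOpen_ball
  have hH : DifferentiableOn ℂ (fun w => W w * (w * deriv A w)) (ball 0 1) :=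
    hW.mul (differentiableOn_id.mul hA')
  have hcp : Continuous fun θ : ℝ => pt 1 θ := pt_cont.comp (continuous_const.prodMk continuous_id)
  set Y : ℝ → ℝ := fun r => (∫ θ in (0 : ℝ)..(2 * Real.pi),
    (fun w => W w * (w * deriv A w)) (pt r θ) * (starRingEnd ℂ) (A (pt r θ))).re with hY
  have hcont : ContinuousOn Y (Icc 0 r) :=
    (Complex.continuous_re.comp_continuousOn (contOn_int hH hA)).mono
      fun x hx => ⟨hx.1, lt_of_le_of_lt hx.2 hr1⟩
  have hmono : MonotoneOn Y (Icc 0 r) := by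
    apply monotoneOn_of_hasDerivWithinAt_nonneg (convex_Icc 0 r) hcont
      (f' := fun s => (2 * ∫ θ in (0 : ℝ)..(2 * Real.pi),
        (fun w => W w * (w * deriv A w)) (pt s θ) *
          (starRingEnd ℂ) (deriv A (pt s θ) * pt 1 θ)).re)
    · intro s hs
      rw [interior_Icc] at hs
      exact (re_d (deriv_pair hH hA hs.1 (hs.2.trans hr1))).hasDerivWithinAt
    · intro s hs
      rw [interior_Icc] at hs
      have hs' : s ∈ Ioo (-1 : ℝ) 1 := ⟨by linarith [hs.1], hs.2.trans hr1⟩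
      have e1 : ∀ θ : ℝ, (fun w => W w * (w * deriv A w)) (pt s θ) *
          (starRingEnd ℂ) (deriv A (pt s θ) * pt 1 θ) =
          W (pt s θ) * ((s * ‖deriv A (pt s θ)‖ ^ 2 : ℝ) : ℂ) := by
        intro θ
        have hp : pt 1 θ * (starRingEnd ℂ) (pt 1 θ) = 1 := by
          rw [Complex.mul_conj, Complex.normSq_eq_norm_sq, norm_pt 1 θ zero_le_one]
          norm_num
        have hd : deriv A (pt s θ) * (starRingEnd ℂ) (deriv A (pt s θ)) =
            ((‖deriv A (pt s θ)‖ ^ 2 : ℝ) : ℂ) := by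
          rw [Complex.mul_conj, Complex.normSq_eq_norm_sq]
        show W (pt s θ) * (pt s θ * deriv A (pt s θ)) * _ = _
        rw [map_mul]
        calc W (pt s θ) * (pt s θ * deriv A (pt s θ)) *
              ((starRingEnd ℂ) (deriv A (pt s θ)) * (starRingEnd ℂ) (pt 1 θ))
            = W (pt s θ) * ((s : ℂ) * (pt 1 θ * (starRingEnd ℂ) (pt 1 θ)) *
              (deriv A (pt s θ) * (starRingEnd ℂ) (deriv A (pt s θ)))) := by
              rw [pt_eq s θ]; ring
          _ = _ := by rw [hp, hd]; push_cast; ring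
      simp only [e1]
      have hc : Continuous fun θ : ℝ => W (pt s θ) * ((s * ‖deriv A (pt s θ)‖ ^ 2 : ℝ) : ℂ) :=
        (cont_pt hW hs').mul (Complex.continuous_ofReal.comp
          (continuous_const.mul ((cont_pt hA' hs').norm.pow 2)))
      have e2 : (2 * ∫ θ in (0 : ℝ)..(2 * Real.pi),
          W (pt s θ) * ((s * ‖deriv A (pt s θ)‖ ^ 2 : ℝ) : ℂ)).re =
          2 * ∫ θ in (0 : ℝ)..(2 * Real.pi), (W (pt s θ) * ((s * ‖deriv A (pt s θ)‖ ^ 2 : ℝ) : ℂ)).re := by
        rw [int_re hc]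
        simp
      rw [e2]
      apply mul_nonneg zero_le_two
      apply intervalIntegral.integral_nonneg (by positivity)
      intro θ _
      rw [Complex.re_mul_ofReal]
      exact mul_nonneg (hpos _ (mem_pt hs' θ)) (mul_nonneg hs.1.le (by positivity))
  have h0 : Y 0 = 0 := by
    simp only [hY]
    have : ∀ θ : ℝ, pt 0 θ = 0 := fun θ => by simp [pt, circleMap]
    simp [this]
  have h1 := hmono (left_mem_Icc.2 hr0.le) (right_mem_Icc.2 hr0.le) hr0.le
  rw [h0] at h1
  have e3 : Y r = r * (∫ θ in (0 : ℝ)..(2 * Real.pi), W (pt r θ) * (deriv A (pt r θ) * pt 1 θ) *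
      (starRingEnd ℂ) (A (pt r θ))).re := by
    simp only [hY]
    rw [← Complex.re_ofReal_mul, ← intervalIntegral.integral_const_mul]
    congr 2
    ext θ
    rw [pt_eq r θ]
    ring
  rw [e3] at h1
  exact nonneg_of_mul_nonneg_right h1 hr0

/-- the derivative of the mean of `|A|² Re W` -/
theorem growth {A W : ℂ → ℂ} (hA : DifferentiableOn ℂ A (ball 0 1))
    (hW : DifferentiableOn ℂ W (ball 0 1)) (hpos : ∀ w ∈ ball (0 : ℂ) 1, 0 ≤ (W w).re) {r : ℝ}
    (hr0 : 0 < r) (hr1 : r < 1) :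
    ∃ m : ℝ, HasDerivAt (fun r => ∫ θ in (0 : ℝ)..(2 * Real.pi), ‖A (pt r θ)‖ ^ 2 * (W (pt r θ)).re)
      m r ∧ m ≤ 4 * ∫ θ in (0 : ℝ)..(2 * Real.pi),
        (W (pt r θ)).re * (‖A (pt r θ)‖ * ‖deriv A (pt r θ)‖) := by
  have hr : r ∈ Ioo (-1 : ℝ) 1 := ⟨by linarith, hr1⟩
  have hA' : DifferentiableOn ℂ (deriv A) (ball 0 1) := hA.deriv isOpen_ball
  have hWA : DifferentiableOn ℂ (fun w => W w * A w) (ball 0 1) := hW.mul hA
  have hcp : Continuous fun θ : ℝ => pt 1 θ := pt_cont.comp (continuous_const.prodMk continuous_id)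
  have h1 := re_d (deriv_pair hWA hA hr0 hr1)
  have e1 : ∀ s ∈ Ioo (-1 : ℝ) 1, (∫ θ in (0 : ℝ)..(2 * Real.pi), (fun w => W w * A w) (pt s θ) *
      (starRingEnd ℂ) (A (pt s θ))).re =
      ∫ θ in (0 : ℝ)..(2 * Real.pi), ‖A (pt s θ)‖ ^ 2 * (W (pt s θ)).re := by
    intro s hs
    rw [← int_re]
    · congr 1
      ext θ
      show (W (pt s θ) * A (pt s θ) * _).re = _
      rw [mul_assoc, Complex.mul_conj, Complex.normSq_eq_norm_sq, Complex.re_mul_ofReal, mul_comm]
    · exact ((cont_pt hW hs).mul (cont_pt hA hs)).mul (Complex.continuous_conj.comp (cont_pt hA hs))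
  refine ⟨_, h1.congr_of_eventuallyEq ?_, ?_⟩
  · filter_upwards [Ioo_mem_nhds hr.1 hr.2] with s hs
    exact (e1 s hs).symm
  · have h2 := pos hA hW hpos hr0 hr1
    have c1 : Continuous fun θ : ℝ => W (pt r θ) * A (pt r θ) *
        (starRingEnd ℂ) (deriv A (pt r θ) * pt 1 θ) :=
      ((cont_pt hW hr).mul (cont_pt hA hr)).mul
        (Complex.continuous_conj.comp ((cont_pt hA' hr).mul hcp))
    have c2 : Continuous fun θ : ℝ => W (pt r θ) * (deriv A (pt r θ) * pt 1 θ) *
        (starRingEnd ℂ) (A (pt r θ)) :=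
      ((cont_pt hW hr).mul ((cont_pt hA' hr).mul hcp)).mul
        (Complex.continuous_conj.comp (cont_pt hA hr))
    have c3 : Continuous fun θ : ℝ => (W (pt r θ)).re * (‖A (pt r θ)‖ * ‖deriv A (pt r θ)‖) :=
      (Complex.continuous_re.comp (cont_pt hW hr)).mul
        ((cont_pt hA hr).norm.mul (cont_pt hA' hr).norm)
    rw [← int_re c2] at h2
    have e2 : (2 * ∫ θ in (0 : ℝ)..(2 * Real.pi), (fun w => W w * A w) (pt r θ) *
        (starRingEnd ℂ) (deriv A (pt r θ) * pt 1 θ)).re =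
        2 * ∫ θ in (0 : ℝ)..(2 * Real.pi), (W (pt r θ) * A (pt r θ) *
        (starRingEnd ℂ) (deriv A (pt r θ) * pt 1 θ)).re := by
      rw [int_re c1]
      simp
    rw [e2]
    have h3 : (∫ θ in (0 : ℝ)..(2 * Real.pi), (W (pt r θ) * A (pt r θ) *
        (starRingEnd ℂ) (deriv A (pt r θ) * pt 1 θ)).re) +
        (∫ θ in (0 : ℝ)..(2 * Real.pi), (W (pt r θ) * (deriv A (pt r θ) * pt 1 θ) *
        (starRingEnd ℂ) (A (pt r θ))).re) ≤
        2 * ∫ θ in (0 : ℝ)..(2 * Real.pi), (W (pt r θ)).re * (‖A (pt r θ)‖ * ‖deriv A (pt r θ)‖) := by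
      have d1 : Continuous fun θ : ℝ => (W (pt r θ) * A (pt r θ) *
        (starRingEnd ℂ) (deriv A (pt r θ) * pt 1 θ)).re := Complex.continuous_re.comp c1
      have d2 : Continuous fun θ : ℝ => (W (pt r θ) * (deriv A (pt r θ) * pt 1 θ) *
        (starRingEnd ℂ) (A (pt r θ))).re := Complex.continuous_re.comp c2
      rw [← intervalIntegral.integral_add (d1.intervalIntegrable _ _) (d2.intervalIntegrable _ _),
        ← intervalIntegral.integral_const_mul]
      apply intervalIntegral.integral_mono_on (by positivity)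
        ((d1.add d2).intervalIntegrable _ _)
        ((continuous_const.mul c3).intervalIntegrable _ _)
      intro θ _
      show (W (pt r θ) * A (pt r θ) * (starRingEnd ℂ) (deriv A (pt r θ) * pt 1 θ)).re +
        (W (pt r θ) * (deriv A (pt r θ) * pt 1 θ) * (starRingEnd ℂ) (A (pt r θ))).re ≤ _
      set D := deriv A (pt r θ) * pt 1 θ with hD
      have hDn : ‖D‖ = ‖deriv A (pt r θ)‖ := by
        rw [hD, norm_mul, norm_pt 1 θ zero_le_one, mul_one]
      have e4 : W (pt r θ) * A (pt r θ) * (starRingEnd ℂ) D +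
          W (pt r θ) * D * (starRingEnd ℂ) (A (pt r θ)) =
          W (pt r θ) * ((2 * (D * (starRingEnd ℂ) (A (pt r θ))).re : ℝ) : ℂ) := by
        have := Complex.add_conj (D * (starRingEnd ℂ) (A (pt r θ)))
        rw [map_mul, Complex.conj_conj] at this
        rw [← this]
        ring
      rw [← Complex.add_re, e4, Complex.re_mul_ofReal]
      show _ ≤ 2 * ((W (pt r θ)).re * (‖A (pt r θ)‖ * ‖deriv A (pt r θ)‖))
      have h5 : (D * (starRingEnd ℂ) (A (pt r θ))).re ≤ ‖A (pt r θ)‖ * ‖deriv A (pt r θ)‖ := by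
        refine (Complex.re_le_norm _).trans (le_of_eq ?_)
        rw [norm_mul, Complex.norm_conj, hDn, mul_comm]
      have h6 := mul_le_mul_of_nonneg_left h5 (hpos _ (mem_pt hr θ))
      linarith
    linarith

end Pool.Agent.H7.SM
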