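import Pool.Agent.H7.SM.Moment
import Pool.Agent.H7.V.W677.MarM

set_option autoImplicit false

/-! # The bound in the disc -/

namespace Pool.Agent.H7.SM

open Complex Metric Set Filter Topology MeasureTheory
open Pool.Agent.W677.Mar (lam bloch_exp)

theorem pt_same (r θ : ℝ) : Pool.Agent.W677.Mar.pt r θ = pt r θ := rfl

/-- finitely many directions -/
theorem dirs {t' t₁ : ℝ} (h0 : 0 ≤ t') (h1 : t' < t₁) : ∃ s : Finset ℂ, (∀ v ∈ s, ‖v‖ = t₁) ∧
    ∀ z : ℂ, Real.exp (t' * ‖z‖) ≤ ∑ v ∈ s, Real.exp (v * z).re := by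
  have ht : 0 < t₁ := lt_of_le_of_lt h0 h1
  set η : ℝ := (t₁ - t') / t₁ with hη
  have hη0 : 0 < η := div_pos (by linarith) ht
  obtain ⟨S, hS, hcov⟩ := (isCompact_sphere (0 : ℂ) 1).elim_finite_subcover_image
    (b := sphere (0 : ℂ) 1) (c := fun x => ball x η) (fun x _ => isOpen_ball)
    (fun x hx => mem_iUnion₂.2 ⟨x, hx, mem_ball_self hη0⟩)
  obtain ⟨hfin, hcov⟩ := hcov
  refine ⟨hfin.toFinset.image (fun u => (t₁ : ℂ) * (starRingEnd ℂ) u), ?_, ?_⟩
  · intro v hv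
    obtain ⟨u, hu, rfl⟩ := Finset.mem_image.1 hv
    have h2 := hS (hfin.mem_toFinset.1 hu)
    rw [mem_sphere_zero_iff_norm] at h2
    rw [norm_mul, Complex.norm_conj, h2, mul_one, Complex.norm_real, Real.norm_of_nonneg ht.le]
  · intro z
    have hex : ∃ u : ℂ, u ∈ S ∧ t' * ‖z‖ ≤ ((t₁ : ℂ) * (starRingEnd ℂ) u * z).re := by
      have hu : ∃ x : ℂ, x ∈ sphere (0 : ℂ) 1 ∧ z = ‖z‖ * x := by
        by_cases hz : z = 0
        · exact ⟨1, by simp, by simp [hz]⟩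
        · refine ⟨z / ‖z‖, ?_, ?_⟩
          · rw [mem_sphere_zero_iff_norm, norm_div, Complex.norm_real, norm_norm,
              div_self (norm_ne_zero_iff.2 hz)]
          · have : (‖z‖ : ℂ) ≠ 0 := by exact_mod_cast norm_ne_zero_iff.2 hz
            field_simp
      obtain ⟨x, hx, hzx⟩ := hu
      obtain ⟨u, huS, hxu⟩ := mem_iUnion₂.1 (hcov hx)
      refine ⟨u, huS, ?_⟩
      have hu1 : ‖u‖ = 1 := mem_sphere_zero_iff_norm.1 (hS huS)
      have hx1 : ‖x‖ = 1 := mem_sphere_zero_iff_norm.1 hx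
      rw [mem_ball_iff_norm] at hxu
      have e1 : (starRingEnd ℂ) u * x = 1 + (starRingEnd ℂ) u * (x - u) := by
        rw [mul_sub, ← Complex.normSq_eq_conj_mul_self, Complex.normSq_eq_norm_sq, hu1]
        push_cast
        ring
      have h3 : 1 - η ≤ ((starRingEnd ℂ) u * x).re := by
        rw [e1, Complex.add_re, Complex.one_re]
        have h4 := (abs_le.1 ((Complex.abs_re_le_norm ((starRingEnd ℂ) u * (x - u))))).1
        rw [norm_mul, Complex.norm_conj, hu1, one_mul] at h4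
        linarith
      have e2 : (t₁ : ℂ) * (starRingEnd ℂ) u * z = ((t₁ * ‖z‖ : ℝ) : ℂ) * ((starRingEnd ℂ) u * x) := by
        conv_lhs => rw [hzx]
        push_cast
        ring
      rw [e2, Complex.re_ofReal_mul]
      have h5 : t₁ * (1 - η) = t' := by
        rw [hη]
        field_simp
        ring
      have h6 := mul_le_mul_of_nonneg_left h3 (mul_nonneg ht.le (norm_nonneg z))
      calc t' * ‖z‖ = t₁ * ‖z‖ * (1 - η) := by rw [← h5]; ring
        _ ≤ _ := h6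
    obtain ⟨u, hu, hle⟩ := hex
    refine (Real.exp_le_exp.2 hle).trans ?_
    exact Finset.single_le_sum (f := fun v : ℂ => Real.exp (v * z).re)
      (fun v _ => (Real.exp_pos _).le)
      (Finset.mem_image_of_mem (fun u => (t₁ : ℂ) * (starRingEnd ℂ) u) (hfin.mem_toFinset.2 hu))

/-- the half plane part: for all `t`, up to a bounded factor, `|exp (t S)|` is `|exp J|` with
`|Im J| ≤ |t| Λ π / 2` -/
def HP (Λ : ℝ) (S : ℂ → ℂ) : Prop := ∀ t : ℂ, ∃ J : ℂ → ℂ, DifferentiableOn ℂ J (ball 0 1) ∧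
  (∀ w ∈ ball (0 : ℂ) 1, |(J w).im| ≤ ‖t‖ * Λ * (Real.pi / 2)) ∧
  (∀ w ∈ ball (0 : ℂ) 1, |(t * S w).re - (J w).re| ≤ ‖t‖ * Λ * (Real.pi / 2)) ∧ (J 0).re ≤ 0

/-- the moments of `T = G + S + B + E` -/
theorem tmom {G S B E T : ℂ → ℂ} {κ Λ K A ε γ c₀ : ℝ} (hG : DifferentiableOn ℂ G (ball 0 1))
    (hE : DifferentiableOn ℂ E (ball 0 1)) (hG0 : G 0 = 0) (hE0 : E 0 = 0) (hS : HP Λ S)
    (hB : ∀ w ∈ ball (0 : ℂ) 1, ‖B w‖ ≤ A)
    (hTd : DifferentiableOn ℂ T (ball 0 1))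
    (hT : ∀ w ∈ ball (0 : ℂ) 1, T w = G w + S w + B w + E w)
    (hTγ : ∀ w ∈ ball (0 : ℂ) 1, ‖T w‖ ≤ γ * lam (‖w‖ ^ 2) + c₀)
    (hK : 0 ≤ K) (hε : 0 ≤ ε) (hγ : 0 ≤ γ)
    (hGm : ∀ r ∈ Ioo (0 : ℝ) 1, ∫ θ in (0 : ℝ)..(2 * Real.pi), ‖deriv G (pt r θ)‖ ≤
      K * (1 - r) ^ (-κ))
    (hEb : ∀ w ∈ ball (0 : ℂ) 1, ‖deriv E w‖ * (1 - ‖w‖ ^ 2) ≤ ε) {t : ℂ} (hΛ : 0 ≤ Λ)
    (ht1 : ‖t‖ * Λ < 1)
    (ht : ‖t‖ * γ + κ < 1) {r : ℝ} (hr : r ∈ Ioo (0 : ℝ) 1) :
    ∫ θ in (0 : ℝ)..(2 * Real.pi), Real.exp (t * T (pt r θ)).re ≤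
      Real.exp (‖t‖ * (Λ * (Real.pi / 2) + A)) * ((Real.cos (‖t‖ * Λ * (Real.pi / 2)))⁻¹ *
        (((1 + r) / (1 - r)) ^ (‖t‖ * ε) * (2 * Real.pi + 2 * ‖t‖ *
          Real.exp (‖t‖ * (Λ * (Real.pi / 2) + A) + ‖t‖ * c₀) * K / (1 - (‖t‖ * γ + κ))))) := by
  obtain ⟨J, hJd, hJi, hJr, hJ0⟩ := hS t
  have hpi := Real.pi_pos
  set D : ℝ := ‖t‖ * (Λ * (Real.pi / 2) + A) with hD
  have h0m : (0 : ℂ) ∈ ball (0 : ℂ) 1 := mem_ball_self one_pos
  have cmp : ∀ w ∈ ball (0 : ℂ) 1,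
      |(t * T w).re - ((t * (G w + E w)).re + (J w).re)| ≤ D := by
    intro w hw
    have e1 : (t * T w).re - ((t * (G w + E w)).re + (J w).re) =
        ((t * S w).re - (J w).re) + (t * B w).re := by
      rw [hT w hw]
      simp only [mul_add, Complex.add_re]
      ring
    rw [e1]
    have h1 := hJr w hw
    have h2 : |(t * B w).re| ≤ ‖t‖ * A := by
      refine (Complex.abs_re_le_norm _).trans ?_
      rw [norm_mul]
      exact mul_le_mul_of_nonneg_left (hB w hw) (norm_nonneg _)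
    refine (abs_add_le _ _).trans ?_
    rw [hD]
    linarith
  have hV : ∀ w ∈ ball (0 : ℂ) 1, Real.exp ((t * (G w + E w)).re + (J w).re) ≤
      Real.exp (D + ‖t‖ * c₀) * (1 - ‖w‖) ^ (-(‖t‖ * γ)) := by
    intro w hw
    have hn : ‖w‖ < 1 := mem_ball_zero_iff.1 hw
    have hn0 := norm_nonneg w
    have h1 := (abs_le.1 (cmp w hw)).1
    have h2 : (t * T w).re ≤ ‖t‖ * (γ * lam (‖w‖ ^ 2) + c₀) := by
      refine (Complex.re_le_norm _).trans ?_
      rw [norm_mul]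
      exact mul_le_mul_of_nonneg_left (hTγ w hw) (norm_nonneg _)
    have h3 : Real.exp (‖t‖ * γ * lam (‖w‖ ^ 2)) = (1 - ‖w‖ ^ 2) ^ (-(‖t‖ * γ)) := by
      rw [Real.rpow_def_of_pos (by nlinarith), lam]
      congr 1
      ring
    have h4 : (1 - ‖w‖ ^ 2) ^ (-(‖t‖ * γ)) ≤ (1 - ‖w‖) ^ (-(‖t‖ * γ)) :=
      Real.rpow_le_rpow_of_nonpos (by linarith) (by nlinarith)
        (by have := mul_nonneg (norm_nonneg t) hγ; linarith)
    calc Real.exp ((t * (G w + E w)).re + (J w).re)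
        ≤ Real.exp ((D + ‖t‖ * c₀) + ‖t‖ * γ * lam (‖w‖ ^ 2)) := by
          apply Real.exp_le_exp.2
          linarith
      _ = Real.exp (D + ‖t‖ * c₀) * (1 - ‖w‖ ^ 2) ^ (-(‖t‖ * γ)) := by rw [Real.exp_add, h3]
      _ ≤ _ := mul_le_mul_of_nonneg_left h4 (Real.exp_pos _).le
  have htΛ : 0 ≤ ‖t‖ * Λ := mul_nonneg (norm_nonneg _) hΛ
  have h1 := mom (t := t) (τ := ‖t‖ * Λ) (σ := ‖t‖ * γ) (κ := κ) hG hE hJd htΛ ht1 hJi hK
    (Real.exp_pos (D + ‖t‖ * c₀)).le hε ht hGm hEb hV hr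
  have hr' : r ∈ Ioo (-1 : ℝ) 1 := ⟨by linarith [hr.1], hr.2⟩
  have hr1 : 0 < 1 - r := by linarith [hr.2]
  have hr2 : 0 < 1 + r := by linarith [hr.1]
  have hcos0 : 0 < Real.cos (‖t‖ * Λ * (Real.pi / 2)) := by
    apply Real.cos_pos_of_mem_Ioo
    constructor <;> nlinarith
  have h2 : 2 * Real.pi * Real.exp ((t * (G 0 + E 0)).re + (J 0).re) ≤ 2 * Real.pi := by
    rw [hG0, hE0]
    have : Real.exp ((t * ((0 : ℂ) + 0)).re + (J 0).re) ≤ 1 := by
      apply Real.exp_le_one_iff.2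
      simpa using hJ0
    nlinarith
  have cV : Continuous fun θ : ℝ => Real.exp ((t * (G (pt r θ) + E (pt r θ))).re + (J (pt r θ)).re) := by
    apply Real.continuous_exp.comp
    exact (Complex.continuous_re.comp (continuous_const.mul ((cont_pt hG hr').add (cont_pt hE hr')))).add
      (Complex.continuous_re.comp (cont_pt hJd hr'))
  have hTc : Continuous fun θ : ℝ => Real.exp (t * T (pt r θ)).re :=
    Real.continuous_exp.comp (Complex.continuous_re.comp (continuous_const.mul (cont_pt hTd hr')))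
  have cV2 : Continuous fun θ : ℝ => Real.exp D *
      Real.exp ((t * (G (pt r θ) + E (pt r θ))).re + (J (pt r θ)).re) := continuous_const.mul cV
  have h3 : ∫ θ in (0 : ℝ)..(2 * Real.pi), Real.exp (t * T (pt r θ)).re ≤
      Real.exp D * ∫ θ in (0 : ℝ)..(2 * Real.pi),
        Real.exp ((t * (G (pt r θ) + E (pt r θ))).re + (J (pt r θ)).re) := by
    rw [← intervalIntegral.integral_const_mul]
    apply intervalIntegral.integral_mono_on (by positivity) (hTc.intervalIntegrable _ _)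
      (cV2.intervalIntegrable _ _)
    intro θ _
    rw [← Real.exp_add]
    apply Real.exp_le_exp.2
    linarith [(abs_le.1 (cmp _ (mem_pt hr' θ))).2]
  refine h3.trans (mul_le_mul_of_nonneg_left (h1.trans ?_) (Real.exp_pos _).le)
  apply mul_le_mul_of_nonneg_left _ (inv_nonneg.2 hcos0.le)
  apply mul_le_mul_of_nonneg_left _ (Real.rpow_nonneg (by positivity) _)
  linarith

/-- the data in the disc -/
structure DD (κ Λ K A ε : ℝ) (G S B E H : ℂ → ℂ) : Prop where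
  dG : DifferentiableOn ℂ G (ball 0 1)
  dE : DifferentiableOn ℂ E (ball 0 1)
  dH : DifferentiableOn ℂ H (ball 0 1)
  G0 : G 0 = 0
  E0 : E 0 = 0
  hS : HP Λ S
  hB : ∀ w ∈ ball (0 : ℂ) 1, ‖B w‖ ≤ A
  eq : ∀ w ∈ ball (0 : ℂ) 1, H w = G w + S w + B w + E w
  gol : ∀ w ∈ ball (0 : ℂ) 1, ‖H w‖ ≤ lam (‖w‖ ^ 2)
  mG : ∀ r ∈ Ioo (0 : ℝ) 1, ∫ θ in (0 : ℝ)..(2 * Real.pi), ‖deriv G (pt r θ)‖ ≤
      K * (1 - r) ^ (-κ)
  bE : ∀ w ∈ ball (0 : ℂ) 1, ‖deriv E w‖ * (1 - ‖w‖ ^ 2) ≤ ε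

/-- growth of Bloch functions -/
theorem bloch_growth {e : ℂ → ℂ} {ε : ℝ} (hd : DifferentiableOn ℂ e (ball 0 1)) (h0 : e 0 = 0)
    (hb : ∀ w ∈ ball (0 : ℂ) 1, ‖deriv e w‖ * (1 - ‖w‖) ≤ ε) {w : ℂ} (hw : w ∈ ball (0 : ℂ) 1) :
    ‖e w‖ ≤ ε * -Real.log (1 - ‖w‖) := by
  have hn : ‖w‖ < 1 := mem_ball_zero_iff.1 hw
  by_cases hw0 : w = 0
  · rw [hw0, h0]
    simp
  have hp : 0 < ‖w‖ := norm_pos_iff.2 hw0
  set v : ℂ := w / ‖w‖ with hv
  have hv1 : ‖v‖ = 1 := by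
    rw [hv, norm_div, Complex.norm_real, norm_norm, div_self hp.ne']
  have hmem : ∀ x ∈ Ico (0 : ℝ) 1, (x : ℂ) * v ∈ ball (0 : ℂ) 1 := by
    intro x hx
    rw [mem_ball_zero_iff, norm_mul, hv1, mul_one, Complex.norm_real, Real.norm_of_nonneg hx.1]
    exact hx.2
  have hd1 : ∀ x ∈ Ico (0 : ℝ) 1, HasDerivAt (fun x : ℝ => e (x * v)) (deriv e (x * v) * v) x := by
    intro x hx
    have h1 := (hd.differentiableAt (isOpen_ball.mem_nhds (hmem x hx))).hasDerivAt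
    have h2 : HasDerivAt (fun x : ℝ => (x : ℂ) * v) (1 * v) x := by
      have h1 : HasDerivAt (fun r : ℝ => (r : ℂ)) 1 x := by
        simpa using (hasDerivAt_id x).ofReal_comp
      exact h1.mul_const _
    rw [one_mul] at h2
    exact h1.comp x h2
  have hlog : ∀ x ∈ Ico (0 : ℝ) 1, HasDerivAt (fun x : ℝ => ε * -Real.log (1 - x))
      (ε * (1 / (1 - x))) x := by
    intro x hx
    have h : HasDerivAt (fun x : ℝ => 1 - x) (-1) x := by
      simpa using (hasDerivAt_id x).const_sub 1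
    have h2 := ((h.log (by linarith [hx.2] : (1 : ℝ) - x ≠ 0)).neg).const_mul ε
    refine h2.congr_deriv ?_
    ring
  have h1 := image_norm_le_of_norm_deriv_right_le_deriv_boundary' (a := 0) (b := ‖w‖)
    (f := fun x : ℝ => e (x * v)) (f' := fun x => deriv e (x * v) * v)
    (B := fun x : ℝ => ε * -Real.log (1 - x)) (B' := fun x => ε * (1 / (1 - x)))
    (fun x hx => (hd1 x ⟨hx.1, lt_of_le_of_lt hx.2 hn⟩).continuousAt.continuousWithinAt)
    (fun x hx => (hd1 x ⟨hx.1, hx.2.trans hn⟩).hasDerivWithinAt)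
    (by simp [h0])
    (fun x hx => (hlog x ⟨hx.1, lt_of_le_of_lt hx.2 hn⟩).continuousAt.continuousWithinAt)
    (fun x hx => (hlog x ⟨hx.1, hx.2.trans hn⟩).hasDerivWithinAt)
    (fun x hx => by
      have hx' : x ∈ Ico (0 : ℝ) 1 := ⟨hx.1, hx.2.trans hn⟩
      have h2 := hb _ (hmem x hx')
      have h3 : ‖(x : ℂ) * v‖ = x := by
        rw [norm_mul, hv1, mul_one, Complex.norm_real, Real.norm_of_nonneg hx.1]
      rw [h3] at h2
      have h4 : 0 < 1 - x := by linarith [hx'.2]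
      rw [norm_mul, hv1, mul_one, mul_one_div, le_div_iff₀ h4]
      exact h2)
    (x := ‖w‖) ⟨hp.le, le_refl _⟩
  have h2 : (‖w‖ : ℂ) * v = w := by
    rw [hv]
    have : (‖w‖ : ℂ) ≠ 0 := by exact_mod_cast hp.ne'
    field_simp
  simp only [h2] at h1
  exact h1

/-- **The bound in the disc.** -/
theorem disc_main (a m κ Λ K A : ℝ) (ha : 0 < a) (ham : a < m) (hκ : 0 ≤ κ) (hmκ : m + κ ≤ 1)
    (hΛ : 0 ≤ Λ) (hmΛ : m * Λ ≤ 1) (hK : 0 ≤ K) :
    ∃ C : ℝ, ∀ (G S B E H : ℂ → ℂ) (r : ℝ), 0 < r → r < 1 →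
      DD κ Λ K A ((m - a) / 24) G S B E H →
      ∫ θ in (0 : ℝ)..(2 * Real.pi), Real.exp (a * ‖H (pt r θ)‖ ^ 2 / lam (r ^ 2)) ≤ C := by
  have hpi := Real.pi_pos
  obtain ⟨δ, hδ⟩ : ∃ δ, δ = m - a := ⟨_, rfl⟩
  have hδ0 : 0 < δ := by linarith
  have hδ1 : δ < 1 := by linarith
  obtain ⟨ε, hε⟩ : ∃ ε, ε = δ / 24 := ⟨_, rfl⟩
  have hε0 : 0 < ε := by linarith
  have hε1 : ε < 1 / 24 := by linarith
  obtain ⟨t₁, ht₁⟩ : ∃ t, t = m - δ / 8 := ⟨_, rfl⟩
  obtain ⟨t', ht'⟩ : ∃ t, t = m - δ / 4 := ⟨_, rfl⟩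
  obtain ⟨t₂, ht₂⟩ : ∃ t, t = 52 / 100 * m := ⟨_, rfl⟩
  obtain ⟨t'', ht''⟩ : ∃ t, t = 51 / 100 * m := ⟨_, rfl⟩
  have ht₁Λ : t₁ * Λ < 1 := by
    rcases hΛ.eq_or_lt with h | h
    · rw [← h, mul_zero]
      exact one_pos
    · have : t₁ * Λ < m * Λ := mul_lt_mul_of_pos_right (by linarith) h
      linarith
  have ht₂Λ : t₂ * Λ < 1 := by
    have : t₂ * Λ = 52 / 100 * (m * Λ) := by rw [ht₂]; ring
    rw [this]
    linarith
  have ht₁Λ0 : 0 ≤ t₁ * Λ := mul_nonneg (by linarith) hΛ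
  obtain ⟨s₁, hs₁, hs₁'⟩ := dirs (t' := t') (t₁ := t₁) (by linarith) (by linarith)
  obtain ⟨s₂, hs₂, hs₂'⟩ := dirs (t' := t'') (t₁ := t₂) (by linarith) (by linarith)
  obtain ⟨C₁, hC₁⟩ : ∃ C, C = Real.exp (t₁ * (Λ * (Real.pi / 2) + A)) * ((Real.cos (t₁ * Λ * (Real.pi / 2)))⁻¹ *
        (4 * (2 * Real.pi + 2 * t₁ *
          Real.exp (t₁ * (Λ * (Real.pi / 2) + A) + t₁ * 0) * K / (1 - (t₁ * 1 + κ))))) := ⟨_, rfl⟩
  obtain ⟨C₂, hC₂⟩ : ∃ C, C = Real.exp (t₂ * (Λ * (Real.pi / 2) + A)) * ((Real.cos (t₂ * Λ * (Real.pi / 2)))⁻¹ *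
        (1 * (2 * Real.pi + 2 * t₂ *
          Real.exp (t₂ * (Λ * (Real.pi / 2) + A) + t₂ * 1) * K / (1 - (t₂ * (25 / 24) + κ))))) := ⟨_, rfl⟩
  refine ⟨max (2 * Real.pi * Real.exp a) (s₁.card * C₁ + (s₂.card * C₂ +
    2 * Real.pi * (1 - 4 * (4 * a) * ε ^ 2)⁻¹)), ?_⟩
  intro G S B E H r hr0 hr1 D
  rw [← hδ, ← hε] at D
  have hr : r ∈ Ioo (0 : ℝ) 1 := ⟨hr0, hr1⟩
  have hr' : r ∈ Ioo (-1 : ℝ) 1 := ⟨by linarith, hr1⟩
  have hnr : ∀ θ, ‖pt r θ‖ = r := fun θ => norm_pt r θ hr0.le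
  obtain ⟨L, hL⟩ : ∃ L, L = lam (r ^ 2) := ⟨_, rfl⟩
  have hr2 : 0 < 1 - r ^ 2 := by nlinarith
  have hL0 : 0 < L := by
    rw [hL, lam]
    have := Real.log_neg hr2 (by nlinarith)
    linarith
  rw [← hL]
  have cH := cont_pt D.dH hr'
  have cE := cont_pt D.dE hr'
  have cI : Continuous fun θ : ℝ => Real.exp (a * ‖H (pt r θ)‖ ^ 2 / L) :=
    Real.continuous_exp.comp ((continuous_const.mul (cH.norm.pow 2)).div_const L)
  have hHL : ∀ θ, ‖H (pt r θ)‖ ≤ L := by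
    intro θ
    have := D.gol _ (mem_pt hr' θ)
    rwa [hnr, ← hL] at this
  rcases le_or_gt L 1 with hL1 | hL1
  · refine le_trans ?_ (le_max_left _ _)
    have h1 : ∫ θ in (0 : ℝ)..(2 * Real.pi), Real.exp (a * ‖H (pt r θ)‖ ^ 2 / L) ≤
        ∫ θ in (0 : ℝ)..(2 * Real.pi), Real.exp a := by
      apply intervalIntegral.integral_mono_on (by positivity) (cI.intervalIntegrable _ _)
        (continuous_const.intervalIntegrable _ _)
      intro θ _
      apply Real.exp_le_exp.2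
      rw [div_le_iff₀ hL0]
      have h2 := hHL θ
      have h3 := norm_nonneg (H (pt r θ))
      have h4 : ‖H (pt r θ)‖ ^ 2 ≤ L ^ 2 := by gcongr
      have h5 : L ^ 2 ≤ L := by nlinarith
      nlinarith
    refine h1.trans (le_of_eq ?_)
    rw [intervalIntegral.integral_const, sub_zero, smul_eq_mul]
  · refine le_trans ?_ (le_max_right _ _)
    -- the bounds of `E`
    have hEb' : ∀ w ∈ ball (0 : ℂ) 1, ‖deriv E w‖ * (1 - ‖w‖) ≤ ε := by
      intro w hw
      have h1 := D.bE w hw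
      have hn : ‖w‖ < 1 := mem_ball_zero_iff.1 hw
      refine le_trans ?_ h1
      apply mul_le_mul_of_nonneg_left _ (norm_nonneg _)
      nlinarith [norm_nonneg w]
    have hEg : ∀ w ∈ ball (0 : ℂ) 1, ‖E w‖ ≤ ε * (lam (‖w‖ ^ 2) + 7 / 10) := by
      intro w hw
      have hn : ‖w‖ < 1 := mem_ball_zero_iff.1 hw
      have hn0 := norm_nonneg w
      refine (bloch_growth D.dE D.E0 hEb' hw).trans ?_
      apply mul_le_mul_of_nonneg_left _ hε0.le
      have h1 : Real.log (1 - ‖w‖ ^ 2) = Real.log (1 - ‖w‖) + Real.log (1 + ‖w‖) := by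
        rw [← Real.log_mul (by linarith) (by linarith)]
        congr 1
        ring
      have h2 : Real.log (1 + ‖w‖) ≤ Real.log 2 := Real.log_le_log (by linarith) (by linarith)
      have h3 := Real.log_two_lt_d9
      rw [lam, h1]
      linarith
    -- the moments of `H`
    have hM₁ : ∀ v ∈ s₁, ∫ θ in (0 : ℝ)..(2 * Real.pi), Real.exp (-(ε * L)) *
        Real.exp (v * H (pt r θ)).re ≤ C₁ := by
      intro v hv
      have hv1 := hs₁ v hv
      have h1 := tmom D.dG D.dE D.G0 D.E0 D.hS D.hB D.dH D.eq (γ := 1) (c₀ := 0)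
        (by intro w hw; simpa using D.gol w hw) hK hε0.le zero_le_one D.mG D.bE (t := v) hΛ
        (by rw [hv1]; linarith) (by rw [hv1]; linarith) hr
      rw [hv1] at h1
      rw [intervalIntegral.integral_const_mul]
      have hcos0 : 0 < Real.cos (t₁ * Λ * (Real.pi / 2)) := by
        apply Real.cos_pos_of_mem_Ioo
        constructor <;> nlinarith
      have hX : 0 ≤ 2 * Real.pi + 2 * t₁ *
          Real.exp (t₁ * (Λ * (Real.pi / 2) + A) + t₁ * 0) * K / (1 - (t₁ * 1 + κ)) := by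
        have : 0 < 1 - (t₁ * 1 + κ) := by linarith
        have : 0 ≤ t₁ := by linarith
        positivity
      have hQ : Real.exp (-(ε * L)) * ((1 + r) / (1 - r)) ^ (t₁ * ε) ≤ 4 := by
        have h2 : (1 + r) / (1 - r) ≤ 4 * Real.exp L := by
          have h3 : Real.exp L = 1 / (1 - r ^ 2) := by
            rw [hL, lam, Real.exp_neg, Real.exp_log hr2, one_div]
          rw [h3, mul_one_div, div_le_div_iff₀ (by linarith) hr2]
          nlinarith [mul_pos (by linarith : 0 < 1 - r) (by linarith : 0 < 1 + r)]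
        have h4 : 1 ≤ (1 + r) / (1 - r) := by
          rw [le_div_iff₀ (by linarith)]
          linarith
        have h5 : ((1 + r) / (1 - r)) ^ (t₁ * ε) ≤ ((1 + r) / (1 - r)) ^ ε := by
          apply Real.rpow_le_rpow_of_exponent_le h4
          have : t₁ ≤ 1 := by linarith
          nlinarith
        have h6 : ((1 + r) / (1 - r)) ^ ε ≤ (4 * Real.exp L) ^ ε :=
          Real.rpow_le_rpow (by linarith) h2 hε0.le
        have h7 : (4 * Real.exp L) ^ ε = 4 ^ ε * Real.exp (ε * L) := by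
          rw [Real.mul_rpow (by norm_num) (Real.exp_pos _).le, ← Real.exp_mul, mul_comm L ε]
        have h8 : (4 : ℝ) ^ ε ≤ 4 := by
          calc (4 : ℝ) ^ ε ≤ 4 ^ (1 : ℝ) := Real.rpow_le_rpow_of_exponent_le (by norm_num) (by linarith)
            _ = 4 := Real.rpow_one 4
        have h9 : Real.exp (-(ε * L)) * Real.exp (ε * L) = 1 := by rw [← Real.exp_add]; simp
        calc Real.exp (-(ε * L)) * ((1 + r) / (1 - r)) ^ (t₁ * ε)
            ≤ Real.exp (-(ε * L)) * (4 ^ ε * Real.exp (ε * L)) := by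
              rw [← h7]
              exact mul_le_mul_of_nonneg_left (h5.trans h6) (Real.exp_pos _).le
          _ = 4 ^ ε := by rw [mul_left_comm, h9, mul_one]
          _ ≤ 4 := h8
      calc Real.exp (-(ε * L)) * ∫ θ in (0 : ℝ)..(2 * Real.pi), Real.exp (v * H (pt r θ)).re
          ≤ Real.exp (-(ε * L)) * (Real.exp (t₁ * (Λ * (Real.pi / 2) + A)) * ((Real.cos (t₁ * Λ * (Real.pi / 2)))⁻¹ *
        (((1 + r) / (1 - r)) ^ (t₁ * ε) * (2 * Real.pi + 2 * t₁ *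
          Real.exp (t₁ * (Λ * (Real.pi / 2) + A) + t₁ * 0) * K / (1 - (t₁ * 1 + κ)))))) :=
            mul_le_mul_of_nonneg_left h1 (Real.exp_pos _).le
        _ = (Real.exp (t₁ * (Λ * (Real.pi / 2) + A)) * ((Real.cos (t₁ * Λ * (Real.pi / 2)))⁻¹ *
            (2 * Real.pi + 2 * t₁ *
          Real.exp (t₁ * (Λ * (Real.pi / 2) + A) + t₁ * 0) * K / (1 - (t₁ * 1 + κ))))) *
            (Real.exp (-(ε * L)) * ((1 + r) / (1 - r)) ^ (t₁ * ε)) := by ring
        _ ≤ (Real.exp (t₁ * (Λ * (Real.pi / 2) + A)) * ((Real.cos (t₁ * Λ * (Real.pi / 2)))⁻¹ *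
            (2 * Real.pi + 2 * t₁ *
          Real.exp (t₁ * (Λ * (Real.pi / 2) + A) + t₁ * 0) * K / (1 - (t₁ * 1 + κ))))) * 4 := by
            apply mul_le_mul_of_nonneg_left hQ
            exact mul_nonneg (Real.exp_pos _).le (mul_nonneg (inv_nonneg.2 hcos0.le) hX)
        _ = C₁ := by rw [hC₁]; ring
    -- the moments of `H - E`
    have hM₂ : ∀ v ∈ s₂, ∫ θ in (0 : ℝ)..(2 * Real.pi),
        Real.exp (v * (H (pt r θ) - E (pt r θ))).re ≤ C₂ := by
      intro v hv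
      have hv1 := hs₂ v hv
      have h1 := tmom (G := G) (S := S) (B := B) (E := fun _ => 0) (T := fun w => H w - E w)
        D.dG (differentiableOn_const 0) D.G0 rfl D.hS D.hB (D.dH.sub D.dE)
        (by intro w hw; rw [D.eq w hw]; ring) (γ := 25 / 24) (c₀ := 1) (ε := 0)
        (by
          intro w hw
          have h2 := D.gol w hw
          have h3 := hEg w hw
          have h4 := norm_sub_le (H w) (E w)
          have h5 : 0 ≤ lam (‖w‖ ^ 2) := (norm_nonneg _).trans h2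
          nlinarith) hK le_rfl (by norm_num) D.mG
        (by intro w hw; simp) (t := v) hΛ (by rw [hv1]; linarith)
        (by rw [hv1]; nlinarith) hr
      rw [hv1, mul_zero, Real.rpow_zero] at h1
      rw [hC₂]
      exact h1
    have hM₃ : ∫ θ in (0 : ℝ)..(2 * Real.pi), Real.exp (4 * a * ‖E (pt r θ)‖ ^ 2 / L) ≤
        2 * Real.pi * (1 - 4 * (4 * a) * ε ^ 2)⁻¹ := by
      rw [hL]
      apply bloch_exp D.dE D.E0 hEb' (by linarith) _ hr0 hr1
      nlinarith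
    -- the pointwise bound
    have hpt : ∀ θ, Real.exp (a * ‖H (pt r θ)‖ ^ 2 / L) ≤
        (∑ v ∈ s₁, Real.exp (-(ε * L)) * Real.exp (v * H (pt r θ)).re) +
        ((∑ v ∈ s₂, Real.exp (v * (H (pt r θ) - E (pt r θ))).re) +
          Real.exp (4 * a * ‖E (pt r θ)‖ ^ 2 / L)) := by
      intro θ
      have n1 : 0 ≤ ∑ v ∈ s₁, Real.exp (-(ε * L)) * Real.exp (v * H (pt r θ)).re :=
        Finset.sum_nonneg fun v _ => by positivity
      have n2 : 0 ≤ ∑ v ∈ s₂, Real.exp (v * (H (pt r θ) - E (pt r θ))).re :=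
        Finset.sum_nonneg fun v _ => by positivity
      have n3 := (Real.exp_pos (4 * a * ‖E (pt r θ)‖ ^ 2 / L)).le
      have hy0 := norm_nonneg (H (pt r θ))
      have hyL := hHL θ
      rcases le_or_gt (L / 18) ‖H (pt r θ)‖ with hy | hy
      · have h1 : a * ‖H (pt r θ)‖ ^ 2 / L ≤ -(ε * L) + t' * ‖H (pt r θ)‖ := by
          have h2 : a * ‖H (pt r θ)‖ ^ 2 / L ≤ a * ‖H (pt r θ)‖ := by
            rw [div_le_iff₀ hL0]
            have : ‖H (pt r θ)‖ ^ 2 ≤ ‖H (pt r θ)‖ * L := by nlinarith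
            nlinarith
          have h3 : (t' - a) * ‖H (pt r θ)‖ ≥ ε * L := by
            have h4 : t' - a = 3 / 4 * δ := by rw [ht', hδ]; ring
            rw [h4, hε]
            nlinarith
          nlinarith
        have h2 : Real.exp (a * ‖H (pt r θ)‖ ^ 2 / L) ≤
            ∑ v ∈ s₁, Real.exp (-(ε * L)) * Real.exp (v * H (pt r θ)).re := by
          rw [← Finset.mul_sum]
          refine (Real.exp_le_exp.2 h1).trans ?_
          rw [Real.exp_add]
          exact mul_le_mul_of_nonneg_left (hs₁' _) (Real.exp_pos _).le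
        linarith
      · have hE1 := hEg _ (mem_pt hr' θ)
        rw [hnr, ← hL] at hE1
        have hE2 : ‖E (pt r θ)‖ ≤ 17 / 240 * L := by nlinarith
        set h' := H (pt r θ) - E (pt r θ) with hh'
        have hh1 : ‖h'‖ ≤ 1265 / 10000 * L := by
          have := norm_sub_le (H (pt r θ)) (E (pt r θ))
          rw [← hh'] at this
          linarith
        have hh0 := norm_nonneg h'
        have hE0 := norm_nonneg (E (pt r θ))
        have h3 : ‖H (pt r θ)‖ ≤ ‖h'‖ + ‖E (pt r θ)‖ := by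
          have := norm_add_le h' (E (pt r θ))
          rw [hh', sub_add_cancel] at this
          exact this
        have h4 : ‖H (pt r θ)‖ ^ 2 ≤ 2 * ‖h'‖ ^ 2 + 2 * ‖E (pt r θ)‖ ^ 2 := by
          nlinarith [sq_nonneg (‖h'‖ - ‖E (pt r θ)‖)]
        have h5 : a * ‖H (pt r θ)‖ ^ 2 / L ≤ 1 / 2 * (t'' * ‖h'‖) + 2 * a * ‖E (pt r θ)‖ ^ 2 / L := by
          have h6 : 2 * a * ‖h'‖ ^ 2 / L ≤ 1 / 2 * (t'' * ‖h'‖) := by
            rw [div_le_iff₀ hL0]
            have h7 : ‖h'‖ ^ 2 ≤ 1265 / 10000 * (‖h'‖ * L) := by nlinarith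
            have h8 : 0 ≤ ‖h'‖ * L := by positivity
            have h9 : 2 * a * ‖h'‖ ^ 2 ≤ 253 / 1000 * a * (‖h'‖ * L) := by nlinarith
            have h10 : 253 / 1000 * a ≤ 1 / 2 * t'' := by rw [ht'']; linarith
            nlinarith
          calc a * ‖H (pt r θ)‖ ^ 2 / L ≤ a * (2 * ‖h'‖ ^ 2 + 2 * ‖E (pt r θ)‖ ^ 2) / L := by gcongr
            _ = 2 * a * ‖h'‖ ^ 2 / L + 2 * a * ‖E (pt r θ)‖ ^ 2 / L := by ring
            _ ≤ _ := by linarith
        have h11 : Real.exp (a * ‖H (pt r θ)‖ ^ 2 / L) ≤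
            Real.exp (t'' * ‖h'‖) + Real.exp (4 * a * ‖E (pt r θ)‖ ^ 2 / L) := by
          obtain ⟨X, hX⟩ : ∃ X, X = t'' * ‖h'‖ := ⟨_, rfl⟩
          obtain ⟨Y, hY⟩ : ∃ Y, Y = 4 * a * ‖E (pt r θ)‖ ^ 2 / L := ⟨_, rfl⟩
          have hY2 : 2 * a * ‖E (pt r θ)‖ ^ 2 / L = 1 / 2 * Y := by rw [hY]; ring
          rw [← hX, hY2] at h5
          rw [← hX, ← hY]
          refine (Real.exp_le_exp.2 h5).trans ?_
          have e1 : Real.exp (1 / 2 * X + 1 / 2 * Y) = Real.exp (X / 2) * Real.exp (Y / 2) := by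
            rw [← Real.exp_add]
            congr 1
            ring
          have e2 : Real.exp X = Real.exp (X / 2) ^ 2 := by
            rw [← Real.exp_nat_mul]
            congr 1
            push_cast
            ring
          have e3 : Real.exp Y = Real.exp (Y / 2) ^ 2 := by
            rw [← Real.exp_nat_mul]
            congr 1
            push_cast
            ring
          rw [e1, e2, e3]
          nlinarith [sq_nonneg (Real.exp (X / 2) - Real.exp (Y / 2)), Real.exp_pos (X / 2),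
            Real.exp_pos (Y / 2)]
        have h12 := hs₂' h'
        linarith
    -- integration
    have c1 : ∀ v : ℂ, Continuous fun θ : ℝ => Real.exp (-(ε * L)) * Real.exp (v * H (pt r θ)).re :=
      fun v => continuous_const.mul (Real.continuous_exp.comp
        (Complex.continuous_re.comp (continuous_const.mul cH)))
    have c2 : ∀ v : ℂ, Continuous fun θ : ℝ => Real.exp (v * (H (pt r θ) - E (pt r θ))).re :=
      fun v => Real.continuous_exp.comp (Complex.continuous_re.comp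
        (continuous_const.mul (cH.sub cE)))
    have c3 : Continuous fun θ : ℝ => Real.exp (4 * a * ‖E (pt r θ)‖ ^ 2 / L) :=
      Real.continuous_exp.comp ((continuous_const.mul (cE.norm.pow 2)).div_const L)
    have c1' : Continuous fun θ : ℝ => ∑ v ∈ s₁, Real.exp (-(ε * L)) * Real.exp (v * H (pt r θ)).re :=
      continuous_finset_sum _ fun v _ => c1 v
    have c2' : Continuous fun θ : ℝ => ∑ v ∈ s₂, Real.exp (v * (H (pt r θ) - E (pt r θ))).re :=
      continuous_finset_sum _ fun v _ => c2 v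
    have c4 : Continuous fun θ : ℝ => (∑ v ∈ s₂, Real.exp (v * (H (pt r θ) - E (pt r θ))).re) +
        Real.exp (4 * a * ‖E (pt r θ)‖ ^ 2 / L) := c2'.add c3
    have c5 : Continuous fun θ : ℝ =>
        (∑ v ∈ s₁, Real.exp (-(ε * L)) * Real.exp (v * H (pt r θ)).re) +
        ((∑ v ∈ s₂, Real.exp (v * (H (pt r θ) - E (pt r θ))).re) +
          Real.exp (4 * a * ‖E (pt r θ)‖ ^ 2 / L)) := c1'.add c4
    have h1 : ∫ θ in (0 : ℝ)..(2 * Real.pi), Real.exp (a * ‖H (pt r θ)‖ ^ 2 / L) ≤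
        ∫ θ in (0 : ℝ)..(2 * Real.pi),
        ((∑ v ∈ s₁, Real.exp (-(ε * L)) * Real.exp (v * H (pt r θ)).re) +
        ((∑ v ∈ s₂, Real.exp (v * (H (pt r θ) - E (pt r θ))).re) +
          Real.exp (4 * a * ‖E (pt r θ)‖ ^ 2 / L))) :=
      intervalIntegral.integral_mono_on (by positivity) (cI.intervalIntegrable _ _)
        (c5.intervalIntegrable _ _) (fun θ _ => hpt θ)
    rw [intervalIntegral.integral_add (c1'.intervalIntegrable _ _) (c4.intervalIntegrable _ _),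
      intervalIntegral.integral_add (c2'.intervalIntegrable _ _) (c3.intervalIntegrable _ _),
      intervalIntegral.integral_finset_sum (fun v _ => (c1 v).intervalIntegrable _ _),
      intervalIntegral.integral_finset_sum (fun v _ => (c2 v).intervalIntegrable _ _)] at h1
    have h2 : ∑ v ∈ s₁, ∫ θ in (0 : ℝ)..(2 * Real.pi), Real.exp (-(ε * L)) *
        Real.exp (v * H (pt r θ)).re ≤ s₁.card * C₁ := by
      have := Finset.sum_le_card_nsmul s₁ _ C₁ hM₁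
      rwa [nsmul_eq_mul] at this
    have h3 : ∑ v ∈ s₂, ∫ θ in (0 : ℝ)..(2 * Real.pi),
        Real.exp (v * (H (pt r θ) - E (pt r θ))).re ≤ s₂.card * C₂ := by
      have := Finset.sum_le_card_nsmul s₂ _ C₂ hM₂
      rwa [nsmul_eq_mul] at this
    linarith

end Pool.Agent.H7.SM
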