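import Pool.Agent.H7.SM.Moment

set_option autoImplicit false

/-! # The mean of `|F|` in terms of the mean of `|Re F|` -/

namespace Pool.Agent.H7.SM

open Complex Metric Set Filter Topology MeasureTheory

theorem dcl {f : ℂ → ℂ} (hf : DifferentiableOn ℂ f (ball 0 1)) {ρ : ℝ} (h0 : 0 < ρ) (h1 : ρ < 1) :
    DiffContOnCl ℂ f (ball 0 |ρ|) := by
  rw [abs_of_pos h0]
  exact hf.diffContOnCl_ball (closedBall_subset_ball h1)

/-- Schwarz' formula -/
theorem schwarz {F : ℂ → ℂ} (hF : DifferentiableOn ℂ F (ball 0 1)) (hF0 : F 0 = 0) {ρ : ℝ}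
    (h0 : 0 < ρ) (h1 : ρ < 1) {w : ℂ} (hw : ‖w‖ < ρ) :
    ‖F w‖ ≤ ‖w‖ * (Real.pi⁻¹ * ∫ θ in (0 : ℝ)..(2 * Real.pi), |(F (pt ρ θ)).re| * ‖pt ρ θ - w‖⁻¹) := by
  have hpi := Real.pi_pos
  have hρ : ρ ∈ Ioo (-1 : ℝ) 1 := ⟨by linarith, h1⟩
  have hwb : w ∈ ball (0 : ℂ) |ρ| := by rwa [abs_of_pos h0, mem_ball_zero_iff]
  have hne : ∀ θ : ℝ, pt ρ θ - w ≠ 0 := by
    intro θ h
    have := norm_pt ρ θ h0.le
    rw [sub_eq_zero.1 h] at this
    linarith
  have cF := cont_pt hF hρ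
  have cp : Continuous fun θ : ℝ => pt ρ θ := pt_cont.comp (continuous_const.prodMk continuous_id)
  have ck : Continuous fun θ : ℝ => (pt ρ θ - w)⁻¹ := (cp.sub continuous_const).inv₀ hne
  have a1 := DiffContOnCl.circleAverage_smul_div (dcl hF h0 h1) hwb
  have a2 := (dcl hF h0 h1).circleAverage
  -- the conjugate part
  have hg : DifferentiableOn ℂ (fun z => F z * ((starRingEnd ℂ) w * z / (ρ ^ 2 - (starRingEnd ℂ) w * z)))
      (closedBall 0 ρ) := by
    apply (hF.mono (closedBall_subset_ball h1)).mul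
    apply DifferentiableOn.div (by fun_prop) (by fun_prop)
    intro z hz h
    rw [mem_closedBall_zero_iff] at hz
    have h2 : ((ρ ^ 2 : ℝ) : ℂ) = (starRingEnd ℂ) w * z := by
      push_cast
      exact sub_eq_zero.1 h
    have h3 := congrArg norm h2
    rw [Complex.norm_real, Real.norm_of_nonneg (by positivity), norm_mul, Complex.norm_conj] at h3
    have h4 : ‖w‖ * ‖z‖ ≤ ‖w‖ * ρ := mul_le_mul_of_nonneg_left hz (norm_nonneg _)
    nlinarith
  have hg' : DiffContOnCl ℂ (fun z => F z * ((starRingEnd ℂ) w * z / (ρ ^ 2 - (starRingEnd ℂ) w * z)))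
      (ball 0 |ρ|) := by
    rw [abs_of_pos h0]
    apply DifferentiableOn.diffContOnCl
    rwa [closure_ball 0 h0.ne']
  have a3 := hg'.circleAverage
  rw [Real.circleAverage_def] at a1 a2 a3
  rw [hF0] at a2
  simp only [mul_zero, zero_div] at a3
  have hpi' : (2 * Real.pi)⁻¹ ≠ 0 := by positivity
  have b2 : ∫ θ in (0 : ℝ)..(2 * Real.pi), F (pt ρ θ) = 0 := (smul_eq_zero.1 a2).resolve_left hpi'
  have b3 := (smul_eq_zero.1 a3).resolve_left hpi'
  have e3 : ∀ θ : ℝ, (starRingEnd ℂ) (F (circleMap 0 ρ θ) * ((starRingEnd ℂ) w * circleMap 0 ρ θ /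
      (ρ ^ 2 - (starRingEnd ℂ) w * circleMap 0 ρ θ))) =
      (starRingEnd ℂ) (F (pt ρ θ)) * (w * (pt ρ θ - w)⁻¹) := by
    intro θ
    show (starRingEnd ℂ) (F (pt ρ θ) * ((starRingEnd ℂ) w * pt ρ θ /
      (ρ ^ 2 - (starRingEnd ℂ) w * pt ρ θ))) = _
    set z := pt ρ θ with hz
    have hzz : z * (starRingEnd ℂ) z = (ρ : ℂ) ^ 2 := by
      rw [Complex.mul_conj, Complex.normSq_eq_norm_sq, hz, norm_pt ρ θ h0.le]
      push_cast
      ring
    have hz0 : (starRingEnd ℂ) z ≠ 0 := by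
      intro h
      rw [h, mul_zero] at hzz
      have : (ρ : ℂ) ≠ 0 := by exact_mod_cast h0.ne'
      exact this (pow_eq_zero_iff two_ne_zero |>.1 hzz.symm)
    rw [map_mul, map_div₀, map_mul, map_sub, map_mul, Complex.conj_conj, map_pow, Complex.conj_ofReal,
      ← hzz]
    have e4 : z * (starRingEnd ℂ) z - w * (starRingEnd ℂ) z = (z - w) * (starRingEnd ℂ) z := by ring
    rw [e4]
    congr 1
    rw [mul_div_mul_right _ _ hz0, div_eq_mul_inv]
  have b4 : ∫ θ in (0 : ℝ)..(2 * Real.pi), (starRingEnd ℂ) (F (pt ρ θ)) * (w * (pt ρ θ - w)⁻¹) = 0 := by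
    have h5 := (Complex.conjCLE.toContinuousLinearMap).intervalIntegral_comp_comm
      (f := fun θ : ℝ => F (circleMap 0 ρ θ) * ((starRingEnd ℂ) w * circleMap 0 ρ θ /
      (ρ ^ 2 - (starRingEnd ℂ) w * circleMap 0 ρ θ))) (a := 0) (b := 2 * Real.pi) (μ := volume) (by
        apply Continuous.intervalIntegrable
        have : ContinuousOn (fun z => F z * ((starRingEnd ℂ) w * z / (ρ ^ 2 - (starRingEnd ℂ) w * z)))
          (closedBall 0 ρ) := hg.continuousOn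
        exact this.comp_continuous (continuous_circleMap 0 ρ) (fun θ => by
          rw [mem_closedBall_zero_iff, norm_circleMap_zero, abs_of_pos h0]))
    have h6 : ∀ z : ℂ, Complex.conjCLE.toContinuousLinearMap z = (starRingEnd ℂ) z := fun z => rfl
    simp only [h6] at h5
    rw [b3, map_zero] at h5
    rw [← h5]
    exact intervalIntegral.integral_congr fun θ _ => (e3 θ).symm
  have i1 : IntervalIntegrable (fun θ : ℝ => (pt ρ θ / (pt ρ θ - w)) * F (pt ρ θ)) volume 0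
      (2 * Real.pi) := by
    apply Continuous.intervalIntegrable
    exact (cp.mul ck).mul cF
  have i2 : IntervalIntegrable (fun θ : ℝ => F (pt ρ θ)) volume 0 (2 * Real.pi) :=
    cF.intervalIntegrable _ _
  have i3 : IntervalIntegrable (fun θ : ℝ => (starRingEnd ℂ) (F (pt ρ θ)) * (w * (pt ρ θ - w)⁻¹))
      volume 0 (2 * Real.pi) :=
    ((Complex.continuous_conj.comp cF).mul (continuous_const.mul ck)).intervalIntegrable _ _
  have b1 : F w = (2 * Real.pi)⁻¹ • ∫ θ in (0 : ℝ)..(2 * Real.pi),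
      ((2 * (F (pt ρ θ)).re : ℝ) : ℂ) * (w * (pt ρ θ - w)⁻¹) := by
    have h7 : ∫ θ in (0 : ℝ)..(2 * Real.pi), ((2 * (F (pt ρ θ)).re : ℝ) : ℂ) * (w * (pt ρ θ - w)⁻¹) =
        ∫ θ in (0 : ℝ)..(2 * Real.pi), (pt ρ θ / (pt ρ θ - w)) * F (pt ρ θ) := by
      have h8 : ∫ θ in (0 : ℝ)..(2 * Real.pi), ((pt ρ θ / (pt ρ θ - w)) * F (pt ρ θ) - F (pt ρ θ) +
          (starRingEnd ℂ) (F (pt ρ θ)) * (w * (pt ρ θ - w)⁻¹)) =
          ∫ θ in (0 : ℝ)..(2 * Real.pi), (pt ρ θ / (pt ρ θ - w)) * F (pt ρ θ) := by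
        rw [intervalIntegral.integral_add (i1.sub i2) i3, intervalIntegral.integral_sub i1 i2, b2, b4,
          sub_zero, add_zero]
      rw [← h8]
      apply intervalIntegral.integral_congr
      intro θ _
      have h9 := Complex.add_conj (F (pt ρ θ))
      simp only
      rw [← h9]
      have := hne θ
      field_simp
      ring
    rw [h7, ← a1]
    simp only [sub_zero, smul_eq_mul]
    rfl
  rw [b1, norm_smul, Real.norm_of_nonneg (by positivity)]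
  have h10 : ‖∫ θ in (0 : ℝ)..(2 * Real.pi), ((2 * (F (pt ρ θ)).re : ℝ) : ℂ) *
      (w * (pt ρ θ - w)⁻¹)‖ ≤ ∫ θ in (0 : ℝ)..(2 * Real.pi),
        (2 * ‖w‖) * (|(F (pt ρ θ)).re| * ‖pt ρ θ - w‖⁻¹) := by
    refine (intervalIntegral.norm_integral_le_integral_norm (by positivity)).trans (le_of_eq ?_)
    apply intervalIntegral.integral_congr
    intro θ _
    simp only
    rw [norm_mul, norm_mul, norm_inv, Complex.norm_real, Real.norm_eq_abs, abs_mul, abs_two]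
    ring
  refine (mul_le_mul_of_nonneg_left h10 (by positivity)).trans (le_of_eq ?_)
  rw [intervalIntegral.integral_const_mul]
  field_simp

/-- the mean of `1 / |1 - w|` -/
theorem kernel {δ : ℝ} (hδ0 : 0 < δ) (hδ1 : δ ≤ 1) {x : ℝ} (hx : x ∈ Ioo (0 : ℝ) 1) :
    ∫ θ in (0 : ℝ)..(2 * Real.pi), ‖1 - pt x θ‖⁻¹ ≤
      (1 - x) ^ (-δ) * (2 * Real.pi / Real.cos ((1 - δ) * (Real.pi / 2))) := by
  have hpi := Real.pi_pos
  have hx' : x ∈ Ioo (-1 : ℝ) 1 := ⟨by linarith [hx.1], hx.2⟩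
  have hx1 : 0 < 1 - x := by linarith [hx.2]
  have hre : ∀ w ∈ ball (0 : ℂ) 1, 0 < (1 - w).re := by
    intro w hw
    have := mem_ball_zero_iff.1 hw
    have h2 := Complex.re_le_norm w
    rw [Complex.sub_re, Complex.one_re]
    linarith
  have hn : ∀ w ∈ ball (0 : ℂ) 1, 1 - ‖w‖ ≤ ‖1 - w‖ := by
    intro w _
    have := norm_sub_norm_le (1 : ℂ) w
    rwa [norm_one] at this
  set J : ℂ → ℂ := fun w => ((-(1 - δ) : ℝ) : ℂ) * Complex.log (1 - w) with hJ
  have hJd : DifferentiableOn ℂ J (ball 0 1) := by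
    apply DifferentiableOn.const_mul
    apply DifferentiableOn.clog (by fun_prop)
    intro w hw
    exact Or.inl (hre w hw)
  have hJre : ∀ w ∈ ball (0 : ℂ) 1, Real.exp (J w).re = ‖1 - w‖ ^ (-(1 - δ)) := by
    intro w hw
    have h0 : 0 < ‖1 - w‖ := by
      have := mem_ball_zero_iff.1 hw
      linarith [hn w hw]
    show Real.exp (((-(1 - δ) : ℝ) : ℂ) * Complex.log (1 - w)).re = _
    rw [Complex.re_ofReal_mul, Complex.log_re, Real.rpow_def_of_pos h0, mul_comm]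
  have h1 := mom (G := fun _ => 0) (E := fun _ => 0) (J := J) (t := 0) (τ := 1 - δ) (σ := 1 - δ)
    (κ := 0) (K := 0) (C₁ := 1) (ε := 0) (differentiableOn_const 0) (differentiableOn_const 0) hJd
    (by linarith) (by linarith) (by
      intro w hw
      show |(((-(1 - δ) : ℝ) : ℂ) * Complex.log (1 - w)).im| ≤ _
      rw [Complex.im_ofReal_mul, abs_mul, abs_neg, abs_of_nonneg (by linarith), Complex.log_im]
      apply mul_le_mul_of_nonneg_left _ (by linarith)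
      exact (Complex.abs_arg_lt_pi_div_two_iff.2 (Or.inl (hre w hw))).le)
    le_rfl zero_le_one le_rfl (by linarith) (by intro r _; simp) (by intro w _; simp)
    (by
      intro w hw
      have h2 := mem_ball_zero_iff.1 hw
      have e1 : ((0 : ℂ) * (0 + 0)).re + (J w).re = (J w).re := by simp
      rw [e1, hJre w hw, one_mul]
      apply Real.rpow_le_rpow_of_nonpos (by linarith) (hn w hw) (by linarith)) hx
  have e2 : ∀ θ : ℝ, Real.exp (((0 : ℂ) * (0 + 0)).re + (J (pt x θ)).re) =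
      ‖1 - pt x θ‖ ^ (-(1 - δ)) := by
    intro θ
    rw [← hJre _ (mem_pt hx' θ)]
    simp
  have e3 : (J 0).re = 0 := by simp [hJ]
  simp only [e2] at h1
  have e4 : (Real.cos ((1 - δ) * (Real.pi / 2)))⁻¹ * (((1 + x) / (1 - x)) ^ (‖(0 : ℂ)‖ * 0) *
        (2 * Real.pi * Real.exp (((0 : ℂ) * (0 + 0)).re + (J 0).re) +
          2 * ‖(0 : ℂ)‖ * 1 * 0 / (1 - (1 - δ + 0)))) =
      2 * Real.pi / Real.cos ((1 - δ) * (Real.pi / 2)) := by
    rw [e3]
    simp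
    ring
  rw [e4] at h1
  have hpos : ∀ θ, 0 < ‖1 - pt x θ‖ := by
    intro θ
    have := hn _ (mem_pt hx' θ)
    rw [norm_pt x θ hx.1.le] at this
    linarith
  have cp : Continuous fun θ : ℝ => pt x θ := pt_cont.comp (continuous_const.prodMk continuous_id)
  have c1 : Continuous fun θ : ℝ => ‖1 - pt x θ‖⁻¹ :=
    (continuous_const.sub cp).norm.inv₀ fun θ => (hpos θ).ne'
  have c2 : Continuous fun θ : ℝ => ‖1 - pt x θ‖ ^ (-(1 - δ)) :=
    (continuous_const.sub cp).norm.rpow_const fun θ => Or.inl (hpos θ).ne'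
  have c3 : Continuous fun θ : ℝ => (1 - x) ^ (-δ) * ‖1 - pt x θ‖ ^ (-(1 - δ)) :=
    continuous_const.mul c2
  have h3 : ∫ θ in (0 : ℝ)..(2 * Real.pi), ‖1 - pt x θ‖⁻¹ ≤
      ∫ θ in (0 : ℝ)..(2 * Real.pi), (1 - x) ^ (-δ) * ‖1 - pt x θ‖ ^ (-(1 - δ)) := by
    apply intervalIntegral.integral_mono_on (by positivity) (c1.intervalIntegrable _ _)
      (c3.intervalIntegrable _ _)
    intro θ _
    have h4 := hn _ (mem_pt hx' θ)
    rw [norm_pt x θ hx.1.le] at h4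
    have h5 : ‖1 - pt x θ‖⁻¹ = ‖1 - pt x θ‖ ^ (-δ) * ‖1 - pt x θ‖ ^ (-(1 - δ)) := by
      rw [← Real.rpow_add (hpos θ), ← Real.rpow_neg_one]
      congr 1
      ring
    rw [h5]
    apply mul_le_mul_of_nonneg_right _ (Real.rpow_nonneg (norm_nonneg _) _)
    exact Real.rpow_le_rpow_of_nonpos hx1 h4 (by linarith)
  refine h3.trans ?_
  rw [intervalIntegral.integral_const_mul]
  exact mul_le_mul_of_nonneg_left h1 (Real.rpow_nonneg hx1.le _)

/-- **From the real part to the modulus.** -/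
theorem mean_of_re {G F : ℂ → ℂ} {κ K δ : ℝ} (hF : DifferentiableOn ℂ F (ball 0 1)) (hF0 : F 0 = 0)
    (hG : DifferentiableOn ℂ G (ball 0 1)) (hGF : ∀ w ∈ ball (0 : ℂ) 1, ‖w * deriv G w‖ = ‖F w‖)
    (hδ0 : 0 < δ) (hδ1 : δ ≤ 1) (hK : 0 ≤ K) (hκδ : κ + δ ≤ 1)
    (hm : ∀ ρ ∈ Ioo (1 / 2 : ℝ) 1, ∫ θ in (0 : ℝ)..(2 * Real.pi), |(F (pt ρ θ)).re| ≤
      K * (1 - ρ) ^ (-κ)) :
    ∀ r ∈ Ioo (0 : ℝ) 1, ∫ θ in (0 : ℝ)..(2 * Real.pi), ‖deriv G (pt r θ)‖ ≤
      (8 / Real.cos ((1 - δ) * (Real.pi / 2)) * K) * (1 - r) ^ (-(κ + δ)) := by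
  intro r hr
  have hpi := Real.pi_pos
  have hr1 : 0 < 1 - r := by linarith [hr.2]
  set ρ : ℝ := (1 + r) / 2 with hρ
  have hρh : 1 / 2 < ρ := by rw [hρ]; linarith [hr.1]
  have hρ0 : 0 < ρ := by linarith
  have hρ1 : ρ < 1 := by rw [hρ]; linarith
  have hρr : r < ρ := by rw [hρ]; linarith
  have hr' : r ∈ Ioo (-1 : ℝ) 1 := ⟨by linarith [hr.1], hr.2⟩
  have hρ' : ρ ∈ Ioo (-1 : ℝ) 1 := ⟨by linarith, hρ1⟩
  have hx : r / ρ ∈ Ioo (0 : ℝ) 1 := ⟨by have := hr.1; positivity, by rw [div_lt_one hρ0]; exact hρr⟩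
  have cG' := (cont_pt (hG.deriv isOpen_ball) hr').norm
  have cF := cont_pt hF hρ'
  have cpt : Continuous fun q : ℝ × ℝ => |(F (pt ρ q.2)).re| * ‖pt ρ q.2 - pt r q.1‖⁻¹ := by
    apply Continuous.mul
    · exact (Complex.continuous_re.comp (cF.comp continuous_snd)).abs
    · apply Continuous.inv₀
      · exact ((pt_cont.comp (continuous_const.prodMk continuous_snd)).sub
          (pt_cont.comp (continuous_const.prodMk continuous_fst))).norm
      · intro q h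
        rw [norm_eq_zero, sub_eq_zero] at h
        have := congrArg norm h
        rw [norm_pt ρ _ hρ0.le, norm_pt r _ hr.1.le] at this
        linarith
  -- pointwise
  have h1 : ∀ θ : ℝ, ‖deriv G (pt r θ)‖ ≤ Real.pi⁻¹ * ∫ φ in (0 : ℝ)..(2 * Real.pi),
      |(F (pt ρ φ)).re| * ‖pt ρ φ - pt r θ‖⁻¹ := by
    intro θ
    have h2 := schwarz hF hF0 hρ0 hρ1 (w := pt r θ) (by rw [norm_pt r θ hr.1.le]; exact hρr)
    rw [← hGF _ (mem_pt hr' θ), norm_mul, norm_pt r θ hr.1.le] at h2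
    exact le_of_mul_le_mul_left h2 hr.1
  have hinner : ∀ φ : ℝ, ∫ θ in (0 : ℝ)..(2 * Real.pi), |(F (pt ρ φ)).re| * ‖pt ρ φ - pt r θ‖⁻¹ =
      |(F (pt ρ φ)).re| * (ρ⁻¹ * ∫ θ in (0 : ℝ)..(2 * Real.pi), ‖1 - pt (r / ρ) θ‖⁻¹) := by
    intro φ
    rw [intervalIntegral.integral_const_mul]
    congr 1
    have e1 : ∀ θ : ℝ, ‖pt ρ φ - pt r θ‖⁻¹ = ρ⁻¹ * ‖1 - pt (r / ρ) (θ - φ)‖⁻¹ := by
      intro θ
      have e2 : pt r θ = pt ρ φ * pt (r / ρ) (θ - φ) := by
        simp only [pt, circleMap, zero_add]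
        have hρC : (ρ : ℂ) ≠ 0 := by exact_mod_cast hρ0.ne'
        have e3 : Complex.exp (θ * I) = Complex.exp (φ * I) * Complex.exp (((θ - φ : ℝ) : ℂ) * I) := by
          rw [← Complex.exp_add]
          congr 1
          push_cast
          ring
        rw [e3]
        push_cast
        field_simp
      rw [e2, ← mul_one_sub, norm_mul, norm_pt ρ φ hρ0.le, mul_inv]
    simp only [e1]
    rw [intervalIntegral.integral_const_mul]
    congr 1
    have hper : Function.Periodic (fun θ : ℝ => ‖1 - pt (r / ρ) θ‖⁻¹) (2 * Real.pi) := by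
      intro θ
      simp only [pt_per]
    have h3 := intervalIntegral.integral_comp_sub_right (a := 0) (b := 2 * Real.pi)
      (fun θ : ℝ => ‖1 - pt (r / ρ) θ‖⁻¹) φ
    rw [h3]
    have h4 := hper.intervalIntegral_add_eq (0 - φ) 0
    rw [zero_add] at h4
    rw [← h4]
    congr 1
    ring
  have hswap : ∫ θ in (0 : ℝ)..(2 * Real.pi), ∫ φ in (0 : ℝ)..(2 * Real.pi),
      |(F (pt ρ φ)).re| * ‖pt ρ φ - pt r θ‖⁻¹ = ∫ φ in (0 : ℝ)..(2 * Real.pi),
        ∫ θ in (0 : ℝ)..(2 * Real.pi), |(F (pt ρ φ)).re| * ‖pt ρ φ - pt r θ‖⁻¹ := by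
    apply MeasureTheory.intervalIntegral_intervalIntegral_swap
    apply (cpt.continuousOn.integrableOn_compact (isCompact_uIcc.prod isCompact_uIcc)).mono_set
    exact prod_mono uIoc_subset_uIcc uIoc_subset_uIcc
  have cin : Continuous fun θ : ℝ => ∫ φ in (0 : ℝ)..(2 * Real.pi),
      |(F (pt ρ φ)).re| * ‖pt ρ φ - pt r θ‖⁻¹ :=
    intervalIntegral.continuous_parametric_intervalIntegral_of_continuous' cpt 0 (2 * Real.pi)
  have c2 : Continuous fun θ : ℝ => Real.pi⁻¹ * ∫ φ in (0 : ℝ)..(2 * Real.pi),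
      |(F (pt ρ φ)).re| * ‖pt ρ φ - pt r θ‖⁻¹ := continuous_const.mul cin
  have h5 : ∫ θ in (0 : ℝ)..(2 * Real.pi), ‖deriv G (pt r θ)‖ ≤
      ∫ θ in (0 : ℝ)..(2 * Real.pi), Real.pi⁻¹ * ∫ φ in (0 : ℝ)..(2 * Real.pi),
      |(F (pt ρ φ)).re| * ‖pt ρ φ - pt r θ‖⁻¹ :=
    intervalIntegral.integral_mono_on (by positivity) (cG'.intervalIntegrable _ _)
      (c2.intervalIntegrable _ _) (fun θ _ => h1 θ)
  rw [intervalIntegral.integral_const_mul, hswap] at h5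
  simp only [hinner] at h5
  rw [intervalIntegral.integral_mul_const] at h5
  refine h5.trans ?_
  have h6 := hm ρ ⟨hρh, hρ1⟩
  have h7 := kernel hδ0 hδ1 hx
  have hcos0 : 0 < Real.cos ((1 - δ) * (Real.pi / 2)) := by
    apply Real.cos_pos_of_mem_Ioo
    constructor <;> nlinarith
  have h8 : 0 ≤ ∫ θ in (0 : ℝ)..(2 * Real.pi), |(F (pt ρ θ)).re| :=
    intervalIntegral.integral_nonneg (by positivity) fun θ _ => abs_nonneg _
  have h9 : (1 - r / ρ) ^ (-δ) ≤ ((1 - r) / 2) ^ (-δ) := by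
    apply Real.rpow_le_rpow_of_nonpos (by linarith) _ (by linarith)
    rw [le_sub_iff_add_le, ← le_sub_iff_add_le', div_le_iff₀ hρ0, hρ]
    nlinarith [hr.1]
  have h10 : (1 - ρ) ^ (-κ) = ((1 - r) / 2) ^ (-κ) := by
    congr 1
    rw [hρ]
    ring
  have h11 : ((1 - r) / 2) ^ (-κ) * ((1 - r) / 2) ^ (-δ) ≤ 2 * (1 - r) ^ (-(κ + δ)) := by
    rw [← Real.rpow_add (by linarith), Real.div_rpow hr1.le zero_le_two,
      show -κ + -δ = -(κ + δ) by ring, Real.rpow_neg zero_le_two, div_inv_eq_mul, mul_comm]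
    apply mul_le_mul_of_nonneg_right _ (Real.rpow_nonneg hr1.le _)
    calc (2 : ℝ) ^ (κ + δ) ≤ 2 ^ (1 : ℝ) := Real.rpow_le_rpow_of_exponent_le (by norm_num) hκδ
      _ = 2 := Real.rpow_one 2
  have h12 : 0 ≤ ((1 - r) / 2) ^ (-κ) := Real.rpow_nonneg (by linarith) _
  have h13 : 0 ≤ ((1 - r) / 2) ^ (-δ) := Real.rpow_nonneg (by linarith) _
  have hρinv : ρ⁻¹ ≤ 2 := by
    rw [inv_le_comm₀ hρ0 two_pos]
    linarith
  have hk0 : 0 ≤ ∫ θ in (0 : ℝ)..(2 * Real.pi), ‖1 - pt (r / ρ) θ‖⁻¹ :=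
    intervalIntegral.integral_nonneg (by positivity) fun θ _ => by positivity
  calc Real.pi⁻¹ * ((∫ φ in (0 : ℝ)..(2 * Real.pi), |(F (pt ρ φ)).re|) *
        (ρ⁻¹ * ∫ θ in (0 : ℝ)..(2 * Real.pi), ‖1 - pt (r / ρ) θ‖⁻¹))
      ≤ Real.pi⁻¹ * ((K * ((1 - r) / 2) ^ (-κ)) * (2 * (((1 - r) / 2) ^ (-δ) *
          (2 * Real.pi / Real.cos ((1 - δ) * (Real.pi / 2)))))) := by
        apply mul_le_mul_of_nonneg_left _ (by positivity)
        rw [h10] at h6
        apply mul_le_mul h6 _ (by positivity) (by positivity)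
        apply mul_le_mul hρinv _ hk0 (by norm_num)
        refine h7.trans (mul_le_mul_of_nonneg_right h9 (by positivity))
    _ = 4 / Real.cos ((1 - δ) * (Real.pi / 2)) * K * (((1 - r) / 2) ^ (-κ) * ((1 - r) / 2) ^ (-δ)) := by
        field_simp
        ring
    _ ≤ 4 / Real.cos ((1 - δ) * (Real.pi / 2)) * K * (2 * (1 - r) ^ (-(κ + δ))) := by
        apply mul_le_mul_of_nonneg_left h11 (by positivity)
    _ = _ := by ring

end Pool.Agent.H7.SM
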