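import Pool.Agent.H7.SM.Disc
import Pool.Agent.H7.SM.Schwarz
import Pool.Agent.H7.V.W677.MarF3

set_option autoImplicit false

/-! # From the exterior to the disc -/

namespace Pool.Agent.H7.SM

open Complex Metric Set Filter Topology MeasureTheory
open Pool.Agent.W677.Mar (lam hat hat_zero hat_ne inv_ext isOpen_ext hat_hasDeriv hat_diff
  hat_deriv hat_closed hat_pos toSg goluzin Hol)

/-- The point `r e^{iθ}`. -/
noncomputable def circ (r θ : ℝ) : ℂ := (r : ℂ) * Complex.exp ((θ : ℂ) * Complex.I)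

/-- The decomposition of `h`. -/
def Dec (κ Λ K A ε : ℝ) (h : ℂ → ℂ) : Prop :=
  ∃ (n : ℕ) (α c : Fin n → ℂ) (p : Fin n → ℂ → ℂ) (g b e : ℂ → ℂ) (d₀ d d' : ℂ),
    Hol g d₀ ∧ (∀ r : ℝ, 1 < r → r < 2 → (1 / (2 * Real.pi)) *
      ∫ θ in (0 : ℝ)..(2 * Real.pi), |(circ r θ * deriv g (circ r θ)).re| ≤ K * (r - 1) ^ (-κ)) ∧
    ∑ j, ‖α j‖ ≤ Λ ∧
    (∀ j, Hol (p j) (c j) ∧ 0 < (c j).re ∧ ∀ z : ℂ, 1 < ‖z‖ → 0 < (p j z).re) ∧
    Hol b d ∧ (∀ z : ℂ, 1 < ‖z‖ → ‖b z‖ ≤ A) ∧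
    Hol e d' ∧ (∀ z : ℂ, 1 < ‖z‖ → (‖z‖ ^ 2 - 1) * ‖deriv e z‖ ≤ ε) ∧
    ∀ z : ℂ, 1 < ‖z‖ → deriv h z =
      deriv g z + ∑ j, α j * (deriv (p j) z / p j z) + deriv b z + deriv e z

theorem const_of_mul {Q : ℂ → ℂ} (hQ : DifferentiableOn ℂ Q (ball 0 1))
    (h : ∀ w ∈ ball (0 : ℂ) 1, w ≠ 0 → deriv Q w = 0) : ∀ w ∈ ball (0 : ℂ) 1, Q w = Q 0 := by
  have h00 : (0 : ℂ) ∈ ball (0 : ℂ) 1 := mem_ball_self one_pos
  have h0 : deriv Q 0 = 0 := by
    have hc : ContinuousAt (deriv Q) 0 :=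
      (hQ.deriv isOpen_ball).continuousOn.continuousAt (isOpen_ball.mem_nhds h00)
    refine tendsto_nhds_unique (hc.tendsto.mono_left (nhdsWithin_le_nhds (s := {0}ᶜ))) ?_
    refine (tendsto_const_nhds (x := (0 : ℂ))).congr' ?_
    filter_upwards [self_mem_nhdsWithin, nhdsWithin_le_nhds (isOpen_ball.mem_nhds h00)] with x hx hxb
    exact (h x hxb hx).symm
  intro w hw
  apply isOpen_ball.is_const_of_deriv_eq_zero (convex_ball (0 : ℂ) 1).isPreconnected hQ _ hw h00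
  intro x hx
  by_cases hx0 : x = 0
  · rw [hx0, h0]
    rfl
  · exact h x hx hx0

theorem circ_inv {ρ θ : ℝ} : (pt ρ θ)⁻¹ = circ ρ⁻¹ (-θ) := by
  simp only [pt, circleMap, zero_add, circ]
  rw [mul_inv, ← Complex.exp_neg]
  push_cast
  congr 2
  ring

theorem circ_per (r θ : ℝ) : circ r (θ + 2 * Real.pi) = circ r θ := by
  have := pt_per r θ
  simpa [pt, circleMap, circ] using this

/-- the half plane part -/
theorem hp_of {Λ : ℝ} {n : ℕ} {α c : Fin n → ℂ} {P : Fin n → ℂ → ℂ} (hα : ∑ j, ‖α j‖ ≤ Λ)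
    (hP : ∀ j, DifferentiableOn ℂ (P j) (ball 0 1)) (hpos : ∀ j, ∀ w ∈ ball (0 : ℂ) 1, 0 < (P j w).re)
    (h0 : ∀ j, P j 0 = c j) :
    HP Λ (fun w => ∑ j, α j * Complex.log (P j w / ‖c j‖)) := by
  have hc : ∀ j, 0 < ‖c j‖ := by
    intro j
    rw [← h0 j, norm_pos_iff]
    intro h
    have := hpos j 0 (mem_ball_self one_pos)
    rw [h] at this
    simp at this
  have hre : ∀ j, ∀ w ∈ ball (0 : ℂ) 1, 0 < (P j w / ‖c j‖).re := by
    intro j w hw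
    rw [Complex.div_ofReal_re]
    exact div_pos (hpos j w hw) (hc j)
  have him : ∀ j, ∀ w ∈ ball (0 : ℂ) 1, |(Complex.log (P j w / ‖c j‖)).im| ≤ Real.pi / 2 := by
    intro j w hw
    rw [Complex.log_im]
    exact (Complex.abs_arg_lt_pi_div_two_iff.2 (Or.inl (hre j w hw))).le
  intro t
  have hsum : ∑ j, ‖t * α j‖ ≤ ‖t‖ * Λ := by
    simp only [norm_mul]
    rw [← Finset.mul_sum]
    exact mul_le_mul_of_nonneg_left hα (norm_nonneg _)
  have hpi := Real.pi_pos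
  refine ⟨fun w => ∑ j, (((t * α j).re : ℝ) : ℂ) * Complex.log (P j w / ‖c j‖), ?_, ?_, ?_, ?_⟩
  · apply DifferentiableOn.fun_sum
    intro j _
    apply DifferentiableOn.const_mul
    apply DifferentiableOn.clog ((hP j).div_const _)
    intro w hw
    exact Or.inl (hre j w hw)
  · intro w hw
    rw [Complex.im_sum]
    refine (Finset.abs_sum_le_sum_abs _ _).trans ?_
    calc ∑ j, |((((t * α j).re : ℝ) : ℂ) * Complex.log (P j w / ‖c j‖)).im|
        ≤ ∑ j, ‖t * α j‖ * (Real.pi / 2) := by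
          apply Finset.sum_le_sum
          intro j _
          rw [Complex.im_ofReal_mul, abs_mul]
          exact mul_le_mul (Complex.abs_re_le_norm _) (him j w hw) (abs_nonneg _) (norm_nonneg _)
      _ = (∑ j, ‖t * α j‖) * (Real.pi / 2) := by rw [Finset.sum_mul]
      _ ≤ _ := mul_le_mul_of_nonneg_right hsum (by positivity)
  · intro w hw
    have e1 : (t * ∑ j, α j * Complex.log (P j w / ‖c j‖)).re -
        (∑ j, (((t * α j).re : ℝ) : ℂ) * Complex.log (P j w / ‖c j‖)).re =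
        ∑ j, -((t * α j).im * (Complex.log (P j w / ‖c j‖)).im) := by
      rw [Finset.mul_sum, Complex.re_sum, Complex.re_sum, ← Finset.sum_sub_distrib]
      apply Finset.sum_congr rfl
      intro j _
      rw [← mul_assoc, Complex.mul_re (t * α j), Complex.re_ofReal_mul]
      ring
    rw [e1]
    refine (Finset.abs_sum_le_sum_abs _ _).trans ?_
    calc ∑ j, |-((t * α j).im * (Complex.log (P j w / ‖c j‖)).im)|
        ≤ ∑ j, ‖t * α j‖ * (Real.pi / 2) := by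
          apply Finset.sum_le_sum
          intro j _
          rw [abs_neg, abs_mul]
          exact mul_le_mul (Complex.abs_im_le_norm _) (him j w hw) (abs_nonneg _) (norm_nonneg _)
      _ = (∑ j, ‖t * α j‖) * (Real.pi / 2) := by rw [Finset.sum_mul]
      _ ≤ _ := mul_le_mul_of_nonneg_right hsum (by positivity)
  · show (∑ j, (((t * α j).re : ℝ) : ℂ) * Complex.log (P j 0 / ‖c j‖)).re ≤ 0
    rw [Complex.re_sum]
    apply le_of_eq
    apply Finset.sum_eq_zero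
    intro j _
    rw [Complex.re_ofReal_mul, Complex.log_re, h0 j, norm_div, Complex.norm_real, norm_norm,
      div_self (hc j).ne', Real.log_one, mul_zero]

/-- the value at `0` of the half plane part -/
theorem hp_zero {Λ : ℝ} {n : ℕ} {α c : Fin n → ℂ} {P : Fin n → ℂ → ℂ} (hα : ∑ j, ‖α j‖ ≤ Λ)
    (hpos : ∀ j, 0 < (c j).re) (h0 : ∀ j, P j 0 = c j) :
    ‖∑ j, α j * Complex.log (P j 0 / ‖c j‖)‖ ≤ Λ * (Real.pi / 2) := by
  have hpi := Real.pi_pos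
  have hc : ∀ j, 0 < ‖c j‖ := by
    intro j
    rw [norm_pos_iff]
    intro h
    have := hpos j
    rw [h] at this
    simp at this
  refine (norm_sum_le _ _).trans ?_
  calc ∑ j, ‖α j * Complex.log (P j 0 / ‖c j‖)‖ ≤ ∑ j, ‖α j‖ * (Real.pi / 2) := by
        apply Finset.sum_le_sum
        intro j _
        rw [norm_mul]
        apply mul_le_mul_of_nonneg_left _ (norm_nonneg _)
        rw [h0 j]
        have h1 : (Complex.log (c j / ‖c j‖)).re = 0 := by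
          rw [Complex.log_re, norm_div, Complex.norm_real, norm_norm, div_self (hc j).ne',
            Real.log_one]
        have h2 : |(Complex.log (c j / ‖c j‖)).im| ≤ Real.pi / 2 := by
          rw [Complex.log_im]
          apply (Complex.abs_arg_lt_pi_div_two_iff.2 (Or.inl _)).le
          rw [Complex.div_ofReal_re]
          exact div_pos (hpos j) (hc j)
        refine (Complex.norm_le_abs_re_add_abs_im _).trans ?_
        rw [h1, abs_zero, zero_add]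
        exact h2
    _ = (∑ j, ‖α j‖) * (Real.pi / 2) := by rw [Finset.sum_mul]
    _ ≤ _ := mul_le_mul_of_nonneg_right hα (by positivity)

/-- the data in the disc -/
theorem toDD {κ Λ K A ε δ : ℝ} {ψ h : ℂ → ℂ} (hψ : DifferentiableOn ℂ ψ {z : ℂ | 1 < ‖z‖})
    (hi : InjOn ψ {z : ℂ | 1 < ‖z‖})
    (hb : ∃ b : ℂ, Tendsto (fun z => ψ z - z) (Bornology.cobounded ℂ) (𝓝 b))
    (hh : DifferentiableOn ℂ h {z : ℂ | 1 < ‖z‖})
    (he : ∀ z : ℂ, 1 < ‖z‖ → Complex.exp (h z) = deriv ψ z)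
    (h0 : Tendsto h (Bornology.cobounded ℂ) (𝓝 0)) (hK : 0 ≤ K) (hκ : 0 ≤ κ) (hδ0 : 0 < δ)
    (hκδ : κ + δ ≤ 1) (hD : Dec κ Λ K A ε h) :
    ∃ (G S B E : ℂ → ℂ), DD (κ + δ) Λ (8 / Real.cos ((1 - δ) * (Real.pi / 2)) * (2 * Real.pi * K))
      (2 * A + Λ * (Real.pi / 2)) ε G S B E (hat h 0) := by
  obtain ⟨n, α, c, p, g, b, e, d₀, d, d', hg, hgm, hα, hp, hbd, hbA, hed, hee, heq⟩ := hD
  have hpi := Real.pi_pos
  have h00 : (0 : ℂ) ∈ ball (0 : ℂ) 1 := mem_ball_self one_pos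
  have Sg := toSg hψ hi hb hh he h0
  have hH : Hol h 0 := ⟨hh, h0⟩
  have hHd := hat_diff hH
  have hPd : ∀ j, DifferentiableOn ℂ (hat (p j) (c j)) (ball 0 1) := fun j => hat_diff (hp j).1
  have hPp : ∀ j, ∀ w ∈ ball (0 : ℂ) 1, 0 < (hat (p j) (c j) w).re := fun j w hw =>
    hat_pos (hp j).2.1 (hp j).2.2 hw
  have hP0 : ∀ j, hat (p j) (c j) 0 = c j := fun j => hat_zero _ _
  have hcn : ∀ j, 0 < ‖c j‖ := by
    intro j
    rw [norm_pos_iff]
    intro h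
    have := (hp j).2.1
    rw [h] at this
    simp at this
  have hre : ∀ j, ∀ w ∈ ball (0 : ℂ) 1, 0 < (hat (p j) (c j) w / ‖c j‖).re := by
    intro j w hw
    rw [Complex.div_ofReal_re]
    exact div_pos (hPp j w hw) (hcn j)
  set G : ℂ → ℂ := fun w => hat g d₀ w - d₀ with hGdef
  set E : ℂ → ℂ := fun w => hat e d' w - d' with hEdef
  set S : ℂ → ℂ := fun w => ∑ j, α j * Complex.log (hat (p j) (c j) w / ‖c j‖) with hSdef
  have hGd : DifferentiableOn ℂ G (ball 0 1) := (hat_diff hg).sub_const _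
  have hEd : DifferentiableOn ℂ E (ball 0 1) := (hat_diff hed).sub_const _
  have hSd : DifferentiableOn ℂ S (ball 0 1) := by
    apply DifferentiableOn.fun_sum
    intro j _
    apply DifferentiableOn.const_mul
    apply DifferentiableOn.clog ((hPd j).div_const _)
    intro w hw
    exact Or.inl (hre j w hw)
  have hbdf := hat_diff hbd
  -- the bounded part
  set Q : ℂ → ℂ := fun w => hat h 0 w - G w - S w - E w - hat b d w with hQ
  have hQd : DifferentiableOn ℂ Q (ball 0 1) := (((hHd.sub hGd).sub hSd).sub hEd).sub hbdf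
  have hQc := const_of_mul hQd (by
    intro w hw hw0
    have hz := inv_ext hw hw0
    have a1 := hat_hasDeriv hH hw hw0
    have a2 := (hat_hasDeriv hg hw hw0).sub_const d₀
    have a3 : HasDerivAt S (∑ j, α j * ((deriv (p j) w⁻¹ * -(w ^ 2)⁻¹) / ‖c j‖ /
        (hat (p j) (c j) w / ‖c j‖))) w := by
      apply HasDerivAt.fun_sum
      intro j _
      exact (((hat_hasDeriv (hp j).1 hw hw0).div_const _).clog (Or.inl (hre j w hw))).const_mul _
    have a4 := (hat_hasDeriv hed hw hw0).sub_const d'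
    have a5 := hat_hasDeriv hbd hw hw0
    have a6 := ((((a1.sub a2).sub a3).sub a4).sub a5).deriv
    have e0 : deriv Q w = deriv h w⁻¹ * -(w ^ 2)⁻¹ - deriv g w⁻¹ * -(w ^ 2)⁻¹ -
        ∑ j, α j * (deriv (p j) w⁻¹ * -(w ^ 2)⁻¹ / ‖c j‖ / (hat (p j) (c j) w / ‖c j‖)) -
        deriv e w⁻¹ * -(w ^ 2)⁻¹ - deriv b w⁻¹ * -(w ^ 2)⁻¹ := a6
    rw [e0, heq _ hz]
    have e1 : ∑ j, α j * (deriv (p j) w⁻¹ * -(w ^ 2)⁻¹ / ‖c j‖ / (hat (p j) (c j) w / ‖c j‖)) =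
        (∑ j, α j * (deriv (p j) w⁻¹ / p j w⁻¹)) * -(w ^ 2)⁻¹ := by
      rw [Finset.sum_mul]
      apply Finset.sum_congr rfl
      intro j _
      rw [hat_ne _ _ hw0]
      have h2 : (‖c j‖ : ℂ) ≠ 0 := by exact_mod_cast (hcn j).ne'
      rw [div_div_div_cancel_right₀ h2]
      ring
    rw [e1]
    ring)
  have hB : ∀ w ∈ ball (0 : ℂ) 1, ‖hat h 0 w - G w - S w - E w‖ ≤ 2 * A + Λ * (Real.pi / 2) := by
    intro w hw
    have h1 := hQc w hw
    have e1 : hat h 0 w - G w - S w - E w = hat b d w - hat b d 0 - S 0 := by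
      have h2 : Q 0 = - S 0 - hat b d 0 := by
        simp only [hQ, hGdef, hEdef, hat_zero]
        ring
      rw [h2] at h1
      have h3 : hat h 0 w - G w - S w - E w = Q w + hat b d w := by simp only [hQ]; ring
      rw [h3, h1]
      ring
    rw [e1]
    have h4 := hat_closed hbd hbA hw
    have h5 := hat_closed hbd hbA h00
    have h6 : ‖S 0‖ ≤ Λ * (Real.pi / 2) := hp_zero hα (fun j => (hp j).2.1) hP0
    have h7 := norm_sub_le (hat b d w - hat b d 0) (S 0)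
    have h8 := norm_sub_le (hat b d w) (hat b d 0)
    linarith
  refine ⟨G, S, fun w => hat h 0 w - G w - S w - E w, E, ?_⟩
  have hκδ' : δ ≤ 1 := by linarith
  refine ⟨hGd, hEd, hHd, ?_, ?_, hp_of hα hPd hPp hP0, hB, ?_, ?_, ?_, ?_⟩
  · simp only [hGdef, hat_zero, sub_self]
  · simp only [hEdef, hat_zero, sub_self]
  · intro w _
    ring
  · intro w hw
    exact goluzin Sg hw
  · -- the variation
    have hG'd : DifferentiableOn ℂ (deriv G) (ball 0 1) := hGd.deriv isOpen_ball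
    have hFd : DifferentiableOn ℂ (fun w => -(w * deriv G w)) (ball 0 1) :=
      (differentiableOn_id.mul hG'd).neg
    apply mean_of_re (F := fun w => -(w * deriv G w)) hFd (by simp) hGd
      (by intro w _; rw [norm_neg]) hδ0 hκδ' (by positivity) hκδ
    intro ρ hρ
    have hρ0 : 0 < ρ := by linarith [hρ.1]
    have hρi : 1 < ρ⁻¹ := (one_lt_inv₀ hρ0).2 hρ.2
    have hρi2 : ρ⁻¹ < 2 := by
      rw [inv_lt_comm₀ hρ0 two_pos]
      linarith [hρ.1]
    have e1 : ∀ θ : ℝ, |(-(pt ρ θ * deriv G (pt ρ θ))).re| =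
        (fun θ : ℝ => |(circ ρ⁻¹ θ * deriv g (circ ρ⁻¹ θ)).re|) (-θ) := by
      intro θ
      have hw : pt ρ θ ∈ ball (0 : ℂ) 1 := mem_pt ⟨by linarith, hρ.2⟩ θ
      have hw0 : pt ρ θ ≠ 0 := by
        rw [← norm_pos_iff, norm_pt ρ θ hρ0.le]
        exact hρ0
      have h1 : deriv G (pt ρ θ) = deriv (hat g d₀) (pt ρ θ) := by
        simp only [hGdef]
        rw [deriv_sub_const]
      rw [h1, hat_deriv hg hw hw0, neg_neg, circ_inv]
    have hper : Function.Periodic (fun θ : ℝ => |(circ ρ⁻¹ θ * deriv g (circ ρ⁻¹ θ)).re|)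
        (2 * Real.pi) := by
      intro θ
      simp only [circ_per]
    have e2 : ∫ θ in (0 : ℝ)..(2 * Real.pi), |(-(pt ρ θ * deriv G (pt ρ θ))).re| =
        ∫ θ in (0 : ℝ)..(2 * Real.pi), |(circ ρ⁻¹ θ * deriv g (circ ρ⁻¹ θ)).re| := by
      simp only [e1]
      rw [intervalIntegral.integral_comp_neg (fun θ : ℝ => |(circ ρ⁻¹ θ * deriv g (circ ρ⁻¹ θ)).re|)]
      have h3 := hper.intervalIntegral_add_eq (-(2 * Real.pi)) 0
      rw [neg_add_cancel, zero_add] at h3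
      rw [neg_zero]
      exact h3
    show ∫ θ in (0 : ℝ)..(2 * Real.pi), |(-(pt ρ θ * deriv G (pt ρ θ))).re| ≤ _
    rw [e2]
    have h4 := hgm _ hρi hρi2
    rw [one_div, inv_mul_le_iff₀ (by positivity)] at h4
    refine h4.trans ?_
    rw [← mul_assoc]
    apply mul_le_mul_of_nonneg_left _ (by positivity)
    apply Real.rpow_le_rpow_of_nonpos (by linarith [hρ.2]) _ (by linarith)
    have h5 : 1 ≤ ρ⁻¹ * 1 := by linarith
    have h6 : (1 - ρ) * ρ ≤ (ρ⁻¹ - 1) * ρ := by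
      rw [sub_mul ρ⁻¹, inv_mul_cancel₀ hρ0.ne']
      nlinarith [hρ.2]
    exact le_of_mul_le_mul_right h6 hρ0
  · -- the Bloch part
    have hed' : DifferentiableOn ℂ (deriv E) (ball 0 1) := hEd.deriv isOpen_ball
    have hne : ∀ w ∈ ball (0 : ℂ) 1, w ≠ 0 → ‖deriv E w‖ * (1 - ‖w‖ ^ 2) ≤ ε := by
      intro w hw hw0
      have hp : 0 < ‖w‖ := norm_pos_iff.2 hw0
      have h1 : deriv E w = deriv e w⁻¹ * -(w ^ 2)⁻¹ :=
        ((hat_hasDeriv hed hw hw0).sub_const d').deriv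
      have h2 := hee _ (inv_ext hw hw0)
      rw [norm_inv] at h2
      rw [h1, norm_mul, norm_neg, norm_inv, norm_pow]
      have h3 : (‖w‖⁻¹ ^ 2 - 1) * ‖deriv e w⁻¹‖ =
          ‖deriv e w⁻¹‖ * (‖w‖ ^ 2)⁻¹ * (1 - ‖w‖ ^ 2) := by
        field_simp
      rw [h3] at h2
      exact h2
    intro w hw
    by_cases hw0 : w = 0
    · have hcont : ContinuousAt (fun w => ‖deriv E w‖ * (1 - ‖w‖ ^ 2)) 0 :=
        ((hed'.continuousOn.continuousAt (isOpen_ball.mem_nhds h00)).norm).mul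
          (continuousAt_const.sub (continuousAt_id.norm.pow 2))
      rw [hw0]
      refine le_of_tendsto (hcont.tendsto.mono_left (nhdsWithin_le_nhds (s := {0}ᶜ))) ?_
      filter_upwards [self_mem_nhdsWithin, nhdsWithin_le_nhds (isOpen_ball.mem_nhds h00)] with x hx hxb
      exact hne x hxb hx
    · exact hne w hw hw0

/-- change of variables on the circle -/
theorem circ_change {h : ℂ → ℂ} {R : ℝ} (hR : 1 < R) (Φ : ℂ → ℝ) :
    ∫ θ in (0 : ℝ)..(2 * Real.pi), Φ (h (circ R θ)) =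
      ∫ θ in (0 : ℝ)..(2 * Real.pi), Φ (hat h 0 (pt R⁻¹ θ)) := by
  have hR0 : 0 < R := by linarith
  set F : ℝ → ℝ := fun θ => Φ (hat h 0 (pt R⁻¹ θ)) with hF
  have hper : Function.Periodic F (2 * Real.pi) := by
    intro θ
    simp only [hF, pt_per R⁻¹ θ]
  have h2 : ∀ θ : ℝ, Φ (h (circ R θ)) = F (-θ) := by
    intro θ
    simp only [hF]
    have hne : pt R⁻¹ (-θ) ≠ 0 := by
      rw [← norm_pos_iff, norm_pt R⁻¹ _ (by positivity)]
      positivity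
    rw [hat_ne _ _ hne, circ_inv, inv_inv, neg_neg]
  simp only [h2]
  rw [intervalIntegral.integral_comp_neg F]
  have h3 := hper.intervalIntegral_add_eq (-(2 * Real.pi)) 0
  rw [neg_add_cancel, zero_add] at h3
  rw [neg_zero]
  exact h3

theorem lam_inv {R : ℝ} (hR : 1 < R) : lam (R⁻¹ ^ 2) = Real.log (R ^ 2 / (R ^ 2 - 1)) := by
  have hR0 : 0 < R := by linarith
  have hR2 : 0 < R ^ 2 - 1 := by nlinarith
  have : 1 - R⁻¹ ^ 2 = (R ^ 2 / (R ^ 2 - 1))⁻¹ := by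
    field_simp
  rw [lam, this, Real.log_inv, neg_neg]

/-- the bound of Q1, exterior version -/
theorem main_ext (a m κ Λ K A : ℝ) (ha0 : 0 < a) (ham : a < m) (hκ : 0 ≤ κ) (hmκ : m + κ ≤ 1)
    (hΛ : 0 ≤ Λ) (hmΛ : m * Λ ≤ 1) (hK : 0 ≤ K) : ∃ C : ℝ,
    ∀ (R : ℝ) (ψ h : ℂ → ℂ), 1 < R → DifferentiableOn ℂ ψ {z : ℂ | 1 < ‖z‖} →
      InjOn ψ {z : ℂ | 1 < ‖z‖} →
      (∃ b : ℂ, Tendsto (fun z => ψ z - z) (Bornology.cobounded ℂ) (𝓝 b)) →
      DifferentiableOn ℂ h {z : ℂ | 1 < ‖z‖} →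
      (∀ z : ℂ, 1 < ‖z‖ → Complex.exp (h z) = deriv ψ z) →
      Tendsto h (Bornology.cobounded ℂ) (𝓝 0) →
      Dec κ Λ K A ((m - a) / 25) h →
      (1 / (2 * Real.pi)) * ∫ θ in (0 : ℝ)..(2 * Real.pi),
        Real.exp (a * ‖h (circ R θ)‖ ^ 2 / Real.log (R ^ 2 / (R ^ 2 - 1))) ≤ C := by
  have hpi := Real.pi_pos
  obtain ⟨δ, hδ⟩ : ∃ δ, δ = (m - a) / 25 := ⟨_, rfl⟩
  have hδ0 : 0 < δ := by rw [hδ]; linarith
  have hmδ : (m - δ) * Λ ≤ 1 := by nlinarith [mul_nonneg hδ0.le hΛ]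
  have hcos0 : 0 < Real.cos ((1 - δ) * (Real.pi / 2)) := by
    apply Real.cos_pos_of_mem_Ioo
    constructor <;> nlinarith
  obtain ⟨C, hC⟩ := disc_main a (m - δ) (κ + δ) Λ
    (8 / Real.cos ((1 - δ) * (Real.pi / 2)) * (2 * Real.pi * K))
    (2 * A + Λ * (Real.pi / 2)) ha0 (by rw [hδ]; linarith) (by linarith) (by linarith) hΛ hmδ
    (by positivity)
  refine ⟨(1 / (2 * Real.pi)) * C, ?_⟩
  intro R ψ h hR hψ hi hb hh he h0 hD
  have hR0 : 0 < R := by linarith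
  obtain ⟨G, S, B, E, D⟩ := toDD hψ hi hb hh he h0 hK hκ hδ0 (by rw [hδ]; linarith) hD
  have e1 : (m - a) / 25 = (m - δ - a) / 24 := by rw [hδ]; ring
  rw [e1] at D
  have h1 := hC G S B E _ R⁻¹ (by positivity) (inv_lt_one_of_one_lt₀ hR) D
  rw [lam_inv hR] at h1
  refine mul_le_mul_of_nonneg_left (le_trans (le_of_eq ?_) h1) (by positivity)
  exact circ_change hR (fun x => Real.exp (a * ‖x‖ ^ 2 / Real.log (R ^ 2 / (R ^ 2 - 1))))

/-- the integral means, exterior version -/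
theorem means_ext (τ κ Λ K A : ℝ) (hτ0 : 0 ≤ τ) (hκ : 0 ≤ κ) (hτκ : τ + κ < 1) (hΛ : 0 ≤ Λ)
    (hτΛ : τ * Λ < 1) (hK : 0 ≤ K) : ∃ C : ℝ,
    ∀ (t : ℂ) (ε R : ℝ) (ψ h : ℂ → ℂ), τ ≤ ‖t‖ → 0 ≤ ε → ε ≤ 1 → 1 < R →
      DifferentiableOn ℂ ψ {z : ℂ | 1 < ‖z‖} →
      InjOn ψ {z : ℂ | 1 < ‖z‖} →
      (∃ b : ℂ, Tendsto (fun z => ψ z - z) (Bornology.cobounded ℂ) (𝓝 b)) →
      DifferentiableOn ℂ h {z : ℂ | 1 < ‖z‖} →
      (∀ z : ℂ, 1 < ‖z‖ → Complex.exp (h z) = deriv ψ z) →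
      Tendsto h (Bornology.cobounded ℂ) (𝓝 0) →
      Dec κ Λ K A ε h →
      (1 / (2 * Real.pi)) * ∫ θ in (0 : ℝ)..(2 * Real.pi), Real.exp (t * h (circ R θ)).re ≤
        C * (R ^ 2 / (R ^ 2 - 1)) ^ (‖t‖ - τ + ε * τ) := by
  have hpi := Real.pi_pos
  obtain ⟨δ, hδ⟩ : ∃ δ, δ = (1 - τ - κ) / 2 := ⟨_, rfl⟩
  have hδ0 : 0 < δ := by rw [hδ]; linarith
  have hcos0 : 0 < Real.cos ((1 - δ) * (Real.pi / 2)) := by
    apply Real.cos_pos_of_mem_Ioo
    constructor <;> nlinarith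
  have hτΛ0 : 0 ≤ τ * Λ := mul_nonneg hτ0 hΛ
  have hcosτ : 0 < Real.cos (τ * Λ * (Real.pi / 2)) := by
    apply Real.cos_pos_of_mem_Ioo
    constructor <;> nlinarith
  obtain ⟨K', hK'⟩ : ∃ K', K' = 8 / Real.cos ((1 - δ) * (Real.pi / 2)) * (2 * Real.pi * K) := ⟨_, rfl⟩
  have hK'0 : 0 ≤ K' := by rw [hK']; positivity
  obtain ⟨A', hA'⟩ : ∃ A', A' = 2 * A + Λ * (Real.pi / 2) := ⟨_, rfl⟩
  obtain ⟨P, hP⟩ : ∃ P, P = 2 * Real.pi + 2 * τ *
          Real.exp (τ * (Λ * (Real.pi / 2) + A') + τ * 0) * K' / (1 - (τ * 1 + (κ + δ))) := ⟨_, rfl⟩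
  have hP0 : 0 ≤ P := by
    have : 0 < 1 - (τ * 1 + (κ + δ)) := by rw [hδ]; linarith
    rw [hP]
    positivity
  refine ⟨(1 / (2 * Real.pi)) * (Real.exp (τ * (Λ * (Real.pi / 2) + A')) *
    ((Real.cos (τ * Λ * (Real.pi / 2)))⁻¹ * (4 * P))), ?_⟩
  intro t ε R ψ h ht hε0 hε1 hR hψ hi hb hh he h0 hD
  have hR0 : 0 < R := by linarith
  have hR2 : 0 < R ^ 2 - 1 := by nlinarith
  have hr0 : 0 < R⁻¹ := by positivity
  have hr1 : R⁻¹ < 1 := inv_lt_one_of_one_lt₀ hR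
  have hq0 : 0 < R ^ 2 / (R ^ 2 - 1) := by positivity
  obtain ⟨q, hqd⟩ : ∃ q, q = R ^ 2 / (R ^ 2 - 1) := ⟨_, rfl⟩
  rw [← hqd] at hq0
  obtain ⟨G, S, B, E, D⟩ := toDD hψ hi hb hh he h0 hK hκ hδ0 (by rw [hδ]; linarith) hD
  rw [← hK', ← hA'] at D
  -- the exponent of modulus `τ`
  obtain ⟨v, hv, hvt⟩ : ∃ v : ℂ, ‖v‖ = τ ∧ ‖t - v‖ = ‖t‖ - τ := by
    by_cases ht0 : t = 0
    · rw [ht0, norm_zero] at ht
      have : τ = 0 := le_antisymm ht hτ0
      exact ⟨0, by rw [norm_zero, this], by rw [ht0, sub_zero, norm_zero, this, sub_zero]⟩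
    · have hn : 0 < ‖t‖ := norm_pos_iff.2 ht0
      refine ⟨((τ / ‖t‖ : ℝ) : ℂ) * t, ?_, ?_⟩
      · rw [norm_mul, Complex.norm_real, Real.norm_of_nonneg (by positivity)]
        field_simp
      · have e1 : t - ((τ / ‖t‖ : ℝ) : ℂ) * t = ((1 - τ / ‖t‖ : ℝ) : ℂ) * t := by
          push_cast
          ring
        have h1 : 0 ≤ 1 - τ / ‖t‖ := by
          rw [sub_nonneg, div_le_one hn]
          exact ht
        rw [e1, norm_mul, Complex.norm_real, Real.norm_of_nonneg h1]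
        field_simp
  have h1 := tmom D.dG D.dE D.G0 D.E0 D.hS D.hB D.dH D.eq (γ := 1) (c₀ := 0)
    (by intro w hw; simpa using D.gol w hw) hK'0 hε0 zero_le_one D.mG D.bE (t := v) hΛ
    (by rw [hv]; exact hτΛ) (by rw [hv, hδ]; linarith) (r := R⁻¹) ⟨hr0, hr1⟩
  rw [hv, ← hP] at h1
  have e2 := circ_change (h := h) hR (fun x => Real.exp (t * x).re)
  rw [e2, mul_assoc (1 / (2 * Real.pi))]
  apply mul_le_mul_of_nonneg_left _ (by positivity)
  have hr' : R⁻¹ ∈ Ioo (-1 : ℝ) 1 := ⟨by linarith, hr1⟩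
  have cH := cont_pt D.dH hr'
  have c1 : Continuous fun θ : ℝ => Real.exp (t * hat h 0 (pt R⁻¹ θ)).re :=
    Real.continuous_exp.comp (Complex.continuous_re.comp (continuous_const.mul cH))
  have c2 : Continuous fun θ : ℝ => q ^ (‖t‖ - τ) * Real.exp (v * hat h 0 (pt R⁻¹ θ)).re :=
    continuous_const.mul
      (Real.continuous_exp.comp (Complex.continuous_re.comp (continuous_const.mul cH)))
  have h2 : ∫ θ in (0 : ℝ)..(2 * Real.pi), Real.exp (t * hat h 0 (pt R⁻¹ θ)).re ≤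
      q ^ (‖t‖ - τ) * ∫ θ in (0 : ℝ)..(2 * Real.pi), Real.exp (v * hat h 0 (pt R⁻¹ θ)).re := by
    rw [← intervalIntegral.integral_const_mul]
    apply intervalIntegral.integral_mono_on (by positivity) (c1.intervalIntegrable _ _)
      (c2.intervalIntegrable _ _)
    intro θ _
    have h3 := D.gol _ (mem_pt hr' θ)
    rw [norm_pt R⁻¹ θ hr0.le, lam_inv hR, ← hqd] at h3
    have e3 : (t * hat h 0 (pt R⁻¹ θ)).re = ((t - v) * hat h 0 (pt R⁻¹ θ)).re +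
        (v * hat h 0 (pt R⁻¹ θ)).re := by
      rw [← Complex.add_re]
      congr 1
      ring
    have h4 : ((t - v) * hat h 0 (pt R⁻¹ θ)).re ≤ (‖t‖ - τ) * Real.log q := by
      refine (Complex.re_le_norm _).trans ?_
      rw [norm_mul, hvt]
      exact mul_le_mul_of_nonneg_left h3 (by linarith)
    rw [e3, Real.exp_add]
    apply mul_le_mul_of_nonneg_right _ (Real.exp_pos _).le
    rw [Real.rpow_def_of_pos hq0, mul_comm (Real.log q)]
    exact Real.exp_le_exp.2 h4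
  have hqt : 0 ≤ q ^ (‖t‖ - τ) := Real.rpow_nonneg hq0.le _
  refine h2.trans ((mul_le_mul_of_nonneg_left h1 hqt).trans ?_)
  have hq : (1 + R⁻¹) / (1 - R⁻¹) ≤ 4 * q := by
    have e3 : (1 + R⁻¹) / (1 - R⁻¹) = (R + 1) ^ 2 / (R ^ 2 - 1) := by
      have : R - 1 ≠ 0 := by linarith
      have h5 : 1 - R⁻¹ = (R - 1) / R := by field_simp
      have h6 : 1 + R⁻¹ = (R + 1) / R := by field_simp
      rw [h5, h6, div_div_div_cancel_right₀ hR0.ne', div_eq_div_iff this hR2.ne']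
      ring
    rw [e3, hqd, ← mul_div_assoc]
    apply div_le_div_of_nonneg_right _ hR2.le
    nlinarith
  have h7 : ((1 + R⁻¹) / (1 - R⁻¹)) ^ (τ * ε) ≤ 4 * q ^ (ε * τ) := by
    calc ((1 + R⁻¹) / (1 - R⁻¹)) ^ (τ * ε) ≤ (4 * q) ^ (τ * ε) :=
          Real.rpow_le_rpow (div_nonneg (by positivity) (by linarith)) hq (by positivity)
      _ = 4 ^ (τ * ε) * q ^ (ε * τ) := by
          rw [Real.mul_rpow (by norm_num) hq0.le, mul_comm τ ε]
      _ ≤ 4 * q ^ (ε * τ) := by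
          apply mul_le_mul_of_nonneg_right _ (Real.rpow_nonneg hq0.le _)
          calc (4 : ℝ) ^ (τ * ε) ≤ 4 ^ (1 : ℝ) :=
                Real.rpow_le_rpow_of_exponent_le (by norm_num) (by nlinarith)
            _ = 4 := Real.rpow_one 4
  have e4 : q ^ (‖t‖ - τ + ε * τ) = q ^ (‖t‖ - τ) * q ^ (ε * τ) := Real.rpow_add hq0 _ _
  rw [← hqd, e4]
  calc q ^ (‖t‖ - τ) * (Real.exp (τ * (Λ * (Real.pi / 2) + A')) *
        ((Real.cos (τ * Λ * (Real.pi / 2)))⁻¹ * (((1 + R⁻¹) / (1 - R⁻¹)) ^ (τ * ε) * P)))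
      = (q ^ (‖t‖ - τ) * Real.exp (τ * (Λ * (Real.pi / 2) + A')) *
        (Real.cos (τ * Λ * (Real.pi / 2)))⁻¹ * P) * ((1 + R⁻¹) / (1 - R⁻¹)) ^ (τ * ε) := by ring
    _ ≤ (q ^ (‖t‖ - τ) * Real.exp (τ * (Λ * (Real.pi / 2) + A')) *
        (Real.cos (τ * Λ * (Real.pi / 2)))⁻¹ * P) * (4 * q ^ (ε * τ)) := by
        apply mul_le_mul_of_nonneg_left h7
        have := inv_nonneg.2 hcosτ.le
        positivity
    _ = _ := by ring

end Pool.Agent.H7.SM
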