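import Pool.Agent.H7.SM.Core

set_option autoImplicit false

/-! # Exponential moments -/

namespace Pool.Agent.H7.SM

open Complex Metric Set Filter Topology MeasureTheory

/-- comparison of `M' ≤ c (1 - r)^(-s) + 2 q M / (1 - r²)` -/
theorem gron {M m : ℝ → ℝ} {c s q : ℝ} (hc : 0 ≤ c) (hs : s < 1) (hq : 0 ≤ q)
    (hM : ContinuousOn M (Ico 0 1)) (hd : ∀ r ∈ Ioo (0 : ℝ) 1, HasDerivAt M (m r) r)
    (hm : ∀ r ∈ Ioo (0 : ℝ) 1, m r ≤ c * (1 - r) ^ (-s) + 2 * q / (1 - r ^ 2) * M r)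
    {r : ℝ} (hr : r ∈ Ico (0 : ℝ) 1) :
    M r ≤ ((1 + r) / (1 - r)) ^ q * (M 0 + c / (1 - s)) := by
  have hs' : 0 < 1 - s := by linarith
  set N : ℝ → ℝ := fun r => M r * ((1 - r) / (1 + r)) ^ q + c / (1 - s) * (1 - r) ^ (1 - s) with hN
  have hcont : ContinuousOn N (Icc 0 r) := by
    apply ContinuousOn.add
    · apply (hM.mono fun x hx => ⟨hx.1, lt_of_le_of_lt hx.2 hr.2⟩).mul
      apply ContinuousOn.rpow_const
      · apply ContinuousOn.div (by fun_prop) (by fun_prop)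
        intro x hx
        have := hx.1
        linarith
      · intro x hx
        left
        have h1 : 0 < 1 - x := by linarith [hx.2, hr.2]
        have h2 : 0 < 1 + x := by linarith [hx.1]
        positivity
    · apply ContinuousOn.mul continuousOn_const
      apply ContinuousOn.rpow_const (by fun_prop)
      intro x hx
      right
      linarith
  have hanti : AntitoneOn N (Icc 0 r) := by
    apply antitoneOn_of_hasDerivWithinAt_nonpos (convex_Icc 0 r) hcont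
      (f' := fun x => (m x * ((1 - x) / (1 + x)) ^ q + M x * (-(2 * q / (1 - x ^ 2)) *
        ((1 - x) / (1 + x)) ^ q)) - c * (1 - x) ^ (-s))
    · intro x hx
      rw [interior_Icc] at hx
      have hx1 : x < 1 := hx.2.trans hr.2
      have h1 : 0 < 1 - x := by linarith
      have h2 : 0 < 1 + x := by linarith [hx.1]
      have d1 : HasDerivAt (fun x : ℝ => (1 - x) / (1 + x)) ((-1 * (1 + x) - (1 - x) * 1) / (1 + x) ^ 2) x := by
        have a1 : HasDerivAt (fun x : ℝ => 1 - x) (-1) x := by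
          simpa using (hasDerivAt_id x).const_sub 1
        have a2 : HasDerivAt (fun x : ℝ => 1 + x) 1 x := by
          simpa using (hasDerivAt_id x).const_add 1
        exact a1.div a2 h2.ne'
      have d2 := d1.rpow_const (p := q) (Or.inl (div_pos h1 h2).ne')
      have d3 : HasDerivAt (fun x : ℝ => (1 - x) ^ (1 - s)) (-1 * (1 - s) * (1 - x) ^ (1 - s - 1)) x := by
        have a1 : HasDerivAt (fun x : ℝ => 1 - x) (-1) x := by
          simpa using (hasDerivAt_id x).const_sub 1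
        exact a1.rpow_const (Or.inl h1.ne')
      have d4 := ((hd x ⟨hx.1, hx1⟩).mul d2).add (d3.const_mul (c / (1 - s)))
      refine (d4.congr_deriv ?_).hasDerivWithinAt
      have e1 : ((1 - x) / (1 + x)) ^ (q - 1) = ((1 - x) / (1 + x)) ^ q / ((1 - x) / (1 + x)) :=
        Real.rpow_sub_one (div_pos h1 h2).ne' q
      have e2 : (1 - x) ^ (1 - s - 1) = (1 - x) ^ (-s) := by congr 1; ring
      rw [e1, e2]
      have h3 : (1 : ℝ) - x ^ 2 = (1 - x) * (1 + x) := by ring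
      rw [h3]
      field_simp
      ring
    · intro x hx
      rw [interior_Icc] at hx
      have hx1 : x < 1 := hx.2.trans hr.2
      have h1 : 0 < 1 - x := by linarith
      have h2 : 0 < 1 + x := by linarith [hx.1]
      have h4 := hm x ⟨hx.1, hx1⟩
      have h5 : 0 < ((1 - x) / (1 + x)) ^ q := Real.rpow_pos_of_pos (div_pos h1 h2) q
      have h6 : ((1 - x) / (1 + x)) ^ q ≤ 1 := by
        apply Real.rpow_le_one (div_pos h1 h2).le _ hq
        rw [div_le_one h2]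
        linarith [hx.1]
      have h7 : 0 ≤ c * (1 - x) ^ (-s) := mul_nonneg hc (Real.rpow_nonneg h1.le _)
      have h8 : m x * ((1 - x) / (1 + x)) ^ q ≤
          (c * (1 - x) ^ (-s) + 2 * q / (1 - x ^ 2) * M x) * ((1 - x) / (1 + x)) ^ q :=
        mul_le_mul_of_nonneg_right h4 h5.le
      have h9 : c * (1 - x) ^ (-s) * ((1 - x) / (1 + x)) ^ q ≤ c * (1 - x) ^ (-s) :=
        mul_le_of_le_one_right h7 h6
      nlinarith
  have h1 := hanti (left_mem_Icc.2 hr.1) (right_mem_Icc.2 hr.1) hr.1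
  have h0 : N 0 = M 0 + c / (1 - s) := by simp [hN]
  rw [h0] at h1
  have hr1 : 0 < 1 - r := by linarith [hr.2]
  have hr2 : 0 < 1 + r := by linarith [hr.1]
  have h2 : 0 ≤ c / (1 - s) * (1 - r) ^ (1 - s) := by
    have := Real.rpow_nonneg hr1.le (1 - s)
    positivity
  have h3 : M r * ((1 - r) / (1 + r)) ^ q ≤ M 0 + c / (1 - s) := by
    simp only [hN] at h1
    linarith
  have h4 : ((1 + r) / (1 - r)) ^ q * ((1 - r) / (1 + r)) ^ q = 1 := by
    rw [← Real.mul_rpow (by positivity) (by positivity)]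
    have : (1 + r) / (1 - r) * ((1 - r) / (1 + r)) = 1 := by field_simp
    rw [this, Real.one_rpow]
  have h5 : 0 ≤ ((1 + r) / (1 - r)) ^ q := Real.rpow_nonneg (by positivity) _
  calc M r = ((1 + r) / (1 - r)) ^ q * (M r * ((1 - r) / (1 + r)) ^ q) := by
        rw [mul_left_comm, h4, mul_one]
    _ ≤ _ := mul_le_mul_of_nonneg_left h3 h5

/-- the moment inequality -/
theorem mom {G E J : ℂ → ℂ} {t : ℂ} {τ σ κ K C₁ ε : ℝ} (hG : DifferentiableOn ℂ G (ball 0 1))
    (hE : DifferentiableOn ℂ E (ball 0 1)) (hJ : DifferentiableOn ℂ J (ball 0 1))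
    (hτ0 : 0 ≤ τ) (hτ1 : τ < 1) (him : ∀ w ∈ ball (0 : ℂ) 1, |(J w).im| ≤ τ * (Real.pi / 2))
    (hK : 0 ≤ K) (hC₁ : 0 ≤ C₁) (hε : 0 ≤ ε) (hσ : σ + κ < 1)
    (hGm : ∀ r ∈ Ioo (0 : ℝ) 1, ∫ θ in (0 : ℝ)..(2 * Real.pi), ‖deriv G (pt r θ)‖ ≤
      K * (1 - r) ^ (-κ))
    (hEb : ∀ w ∈ ball (0 : ℂ) 1, ‖deriv E w‖ * (1 - ‖w‖ ^ 2) ≤ ε)
    (hV : ∀ w ∈ ball (0 : ℂ) 1, Real.exp ((t * (G w + E w)).re + (J w).re) ≤
      C₁ * (1 - ‖w‖) ^ (-σ)) {r : ℝ} (hr : r ∈ Ioo (0 : ℝ) 1) :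
    ∫ θ in (0 : ℝ)..(2 * Real.pi),
      Real.exp ((t * (G (pt r θ) + E (pt r θ))).re + (J (pt r θ)).re) ≤
      (Real.cos (τ * (Real.pi / 2)))⁻¹ * (((1 + r) / (1 - r)) ^ (‖t‖ * ε) *
        (2 * Real.pi * Real.exp ((t * (G 0 + E 0)).re + (J 0).re) +
          2 * ‖t‖ * C₁ * K / (1 - (σ + κ)))) := by
  have hpi := Real.pi_pos
  set A : ℂ → ℂ := fun w => Complex.exp (t * (G w + E w) / 2) with hA
  set W : ℂ → ℂ := fun w => Complex.exp (J w) with hW
  have hAd : DifferentiableOn ℂ A (ball 0 1) := (((hG.add hE).const_mul t).div_const 2).cexp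
  have hWd : DifferentiableOn ℂ W (ball 0 1) := hJ.cexp
  have hcos0 : 0 < Real.cos (τ * (Real.pi / 2)) := by
    apply Real.cos_pos_of_mem_Ioo
    constructor <;> nlinarith
  have hcos : ∀ w ∈ ball (0 : ℂ) 1, Real.cos (τ * (Real.pi / 2)) ≤ Real.cos (J w).im := by
    intro w hw
    rw [← Real.cos_abs (J w).im]
    exact Real.cos_le_cos_of_nonneg_of_le_pi (abs_nonneg _) (by nlinarith) (him w hw)
  have hWre : ∀ w, (W w).re = Real.exp (J w).re * Real.cos (J w).im := fun w => Complex.exp_re _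
  have hA2 : ∀ w, ‖A w‖ ^ 2 = Real.exp (t * (G w + E w)).re := by
    intro w
    rw [hA]
    show ‖Complex.exp (t * (G w + E w) / 2)‖ ^ 2 = _
    rw [Complex.norm_exp, ← Real.exp_nat_mul]
    congr 1
    rw [show (t * (G w + E w) / 2) = (t * (G w + E w)) * ((1 / 2 : ℝ) : ℂ) by push_cast; ring,
      Complex.re_mul_ofReal]
    push_cast
    ring
  have hWpos : ∀ w ∈ ball (0 : ℂ) 1, 0 ≤ (W w).re := by
    intro w hw
    rw [hWre]
    exact mul_nonneg (Real.exp_pos _).le (hcos0.le.trans (hcos w hw))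
  -- the two comparisons
  have hlow : ∀ w ∈ ball (0 : ℂ) 1, Real.cos (τ * (Real.pi / 2)) *
      Real.exp ((t * (G w + E w)).re + (J w).re) ≤ ‖A w‖ ^ 2 * (W w).re := by
    intro w hw
    rw [hA2, hWre, Real.exp_add]
    have := mul_le_mul_of_nonneg_left (hcos w hw)
      (mul_pos (Real.exp_pos (t * (G w + E w)).re) (Real.exp_pos (J w).re)).le
    linarith
  have hupp : ∀ w, ‖A w‖ ^ 2 * (W w).re ≤ Real.exp ((t * (G w + E w)).re + (J w).re) := by
    intro w
    rw [hA2, hWre, Real.exp_add]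
    have := mul_le_mul_of_nonneg_left (Real.cos_le_one (J w).im)
      (mul_pos (Real.exp_pos (t * (G w + E w)).re) (Real.exp_pos (J w).re)).le
    linarith
  have hA' : ∀ w ∈ ball (0 : ℂ) 1, ‖deriv A w‖ ≤ ‖A w‖ * (‖t‖ * (‖deriv G w‖ + ‖deriv E w‖) / 2) := by
    intro w hw
    have hmem := isOpen_ball.mem_nhds hw
    have g1 := (hG.differentiableAt hmem).hasDerivAt
    have e1 := (hE.differentiableAt hmem).hasDerivAt
    have d1 := (((g1.add e1).const_mul t).div_const 2).cexp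
    have d2 : deriv A w = Complex.exp (t * (G w + E w) / 2) * (t * (deriv G w + deriv E w) / 2) := d1.deriv
    rw [d2, norm_mul, norm_div, norm_mul]
    apply mul_le_mul_of_nonneg_left _ (norm_nonneg _)
    rw [show ‖(2 : ℂ)‖ = 2 by simp]
    have := mul_le_mul_of_nonneg_left (norm_add_le (deriv G w) (deriv E w)) (norm_nonneg t)
    linarith
  -- the differential inequality
  set M : ℝ → ℝ := fun r => ∫ θ in (0 : ℝ)..(2 * Real.pi), ‖A (pt r θ)‖ ^ 2 * (W (pt r θ)).re with hM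
  have key : ∀ s ∈ Ioo (0 : ℝ) 1, ∃ m : ℝ, HasDerivAt M m s ∧
      m ≤ 2 * ‖t‖ * C₁ * K * (1 - s) ^ (-(σ + κ)) + 2 * (‖t‖ * ε) / (1 - s ^ 2) * M s := by
    intro s hs
    have hs' : s ∈ Ioo (-1 : ℝ) 1 := ⟨by linarith [hs.1], hs.2⟩
    obtain ⟨m, hm, hm2⟩ := growth hAd hWd hWpos hs.1 hs.2
    refine ⟨m, hm, hm2.trans ?_⟩
    have hs1 : 0 < 1 - s := by linarith [hs.2]
    have hs2 : 0 < 1 - s ^ 2 := by nlinarith [hs.1, hs.2]
    have cG : Continuous fun θ : ℝ => ‖deriv G (pt s θ)‖ := (cont_pt (hG.deriv isOpen_ball) hs').norm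
    have cA := cont_pt hAd hs'
    have cA' := cont_pt (hAd.deriv isOpen_ball) hs'
    have cW := cont_pt hWd hs'
    have cM : Continuous fun θ : ℝ => ‖A (pt s θ)‖ ^ 2 * (W (pt s θ)).re :=
      (cA.norm.pow 2).mul (Complex.continuous_re.comp cW)
    have cL : Continuous fun θ : ℝ => (W (pt s θ)).re * (‖A (pt s θ)‖ * ‖deriv A (pt s θ)‖) :=
      (Complex.continuous_re.comp cW).mul (cA.norm.mul cA'.norm)
    have cX : Continuous fun θ : ℝ => (2 * ‖t‖ * (C₁ * (1 - s) ^ (-σ))) * ‖deriv G (pt s θ)‖ :=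
      continuous_const.mul cG
    have cY : Continuous fun θ : ℝ =>
        (2 * (‖t‖ * ε) / (1 - s ^ 2)) * (‖A (pt s θ)‖ ^ 2 * (W (pt s θ)).re) :=
      continuous_const.mul cM
    have cZ : Continuous fun θ : ℝ => (2 * ‖t‖ * (C₁ * (1 - s) ^ (-σ))) * ‖deriv G (pt s θ)‖ +
        (2 * (‖t‖ * ε) / (1 - s ^ 2)) * (‖A (pt s θ)‖ ^ 2 * (W (pt s θ)).re) := cX.add cY
    have cL4 : Continuous fun θ : ℝ =>
        4 * ((W (pt s θ)).re * (‖A (pt s θ)‖ * ‖deriv A (pt s θ)‖)) := continuous_const.mul cL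
    have h1 : 4 * ∫ θ in (0 : ℝ)..(2 * Real.pi), (W (pt s θ)).re * (‖A (pt s θ)‖ * ‖deriv A (pt s θ)‖) ≤
        ∫ θ in (0 : ℝ)..(2 * Real.pi), ((2 * ‖t‖ * (C₁ * (1 - s) ^ (-σ))) * ‖deriv G (pt s θ)‖ +
          (2 * (‖t‖ * ε) / (1 - s ^ 2)) * (‖A (pt s θ)‖ ^ 2 * (W (pt s θ)).re)) := by
      rw [← intervalIntegral.integral_const_mul]
      apply intervalIntegral.integral_mono_on (by positivity)
        (cL4.intervalIntegrable _ _) (cZ.intervalIntegrable _ _)
      intro θ _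
      have hw := mem_pt hs' θ
      have hn : ‖pt s θ‖ = s := norm_pt s θ hs.1.le
      have b1 := hA' _ hw
      have b2 := hWpos _ hw
      have b3 := hEb _ hw
      rw [hn] at b3
      have b4 := (hupp (pt s θ)).trans (hV _ hw)
      rw [hn] at b4
      have b5 : ‖deriv E (pt s θ)‖ ≤ ε / (1 - s ^ 2) := by rwa [le_div_iff₀ hs2]
      have b6 : 0 ≤ ‖A (pt s θ)‖ ^ 2 * (W (pt s θ)).re := mul_nonneg (by positivity) b2
      calc 4 * ((W (pt s θ)).re * (‖A (pt s θ)‖ * ‖deriv A (pt s θ)‖))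
          ≤ 4 * ((W (pt s θ)).re * (‖A (pt s θ)‖ * (‖A (pt s θ)‖ *
            (‖t‖ * (‖deriv G (pt s θ)‖ + ‖deriv E (pt s θ)‖) / 2)))) := by gcongr
        _ = 2 * ‖t‖ * (‖A (pt s θ)‖ ^ 2 * (W (pt s θ)).re) * ‖deriv G (pt s θ)‖ +
            2 * ‖t‖ * (‖A (pt s θ)‖ ^ 2 * (W (pt s θ)).re) * ‖deriv E (pt s θ)‖ := by ring
        _ ≤ 2 * ‖t‖ * (C₁ * (1 - s) ^ (-σ)) * ‖deriv G (pt s θ)‖ +
            2 * ‖t‖ * (‖A (pt s θ)‖ ^ 2 * (W (pt s θ)).re) * (ε / (1 - s ^ 2)) := by gcongr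
        _ = _ := by ring
    rw [intervalIntegral.integral_add (cX.intervalIntegrable _ _)
      (cY.intervalIntegrable _ _), intervalIntegral.integral_const_mul,
      intervalIntegral.integral_const_mul] at h1
    refine h1.trans (add_le_add ?_ (le_refl _))
    have h2 := mul_le_mul_of_nonneg_left (hGm s hs)
      (by have := Real.rpow_nonneg hs1.le (-σ); positivity :
        (0 : ℝ) ≤ 2 * ‖t‖ * (C₁ * (1 - s) ^ (-σ)))
    refine h2.trans (le_of_eq ?_)
    have e1 : (1 - s) ^ (-(σ + κ)) = (1 - s) ^ (-σ) * (1 - s) ^ (-κ) := by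
      rw [← Real.rpow_add hs1]
      congr 1
      ring
    rw [e1]
    ring
  choose! m hm1 hm2 using key
  have hMc : ContinuousOn M (Ico 0 1) := by
    have h1 := contOn_int (f := fun w => W w * A w) (g := A) (hWd.mul hAd) hAd
    have h2 := Complex.continuous_re.comp_continuousOn h1
    refine h2.congr ?_
    intro s hs
    have hs' : s ∈ Ioo (-1 : ℝ) 1 := ⟨by linarith [hs.1], hs.2⟩
    show M s = (∫ θ in (0 : ℝ)..(2 * Real.pi), W (pt s θ) * A (pt s θ) *
      (starRingEnd ℂ) (A (pt s θ))).re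
    rw [← int_re]
    · simp only [hM]
      congr 1
      ext θ
      rw [mul_assoc, Complex.mul_conj, Complex.normSq_eq_norm_sq, Complex.re_mul_ofReal, mul_comm]
    · exact ((cont_pt hWd hs').mul (cont_pt hAd hs')).mul
        (Complex.continuous_conj.comp (cont_pt hAd hs'))
  have h1 := gron (M := M) (m := m) (c := 2 * ‖t‖ * C₁ * K) (s := σ + κ) (q := ‖t‖ * ε)
    (by positivity) hσ (by positivity) hMc hm1 hm2 ⟨hr.1.le, hr.2⟩
  have h2 : M 0 ≤ 2 * Real.pi * Real.exp ((t * (G 0 + E 0)).re + (J 0).re) := by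
    have : ∀ θ : ℝ, pt 0 θ = 0 := fun θ => by simp [pt, circleMap]
    simp only [hM, this, intervalIntegral.integral_const, sub_zero, smul_eq_mul]
    exact mul_le_mul_of_nonneg_left (hupp 0) (by positivity)
  have hr' : r ∈ Ioo (-1 : ℝ) 1 := ⟨by linarith [hr.1], hr.2⟩
  have cV : Continuous fun θ : ℝ => Real.exp ((t * (G (pt r θ) + E (pt r θ))).re + (J (pt r θ)).re) := by
    apply Real.continuous_exp.comp
    exact (Complex.continuous_re.comp (continuous_const.mul ((cont_pt hG hr').add (cont_pt hE hr')))).add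
      (Complex.continuous_re.comp (cont_pt hJ hr'))
  have cM : Continuous fun θ : ℝ => ‖A (pt r θ)‖ ^ 2 * (W (pt r θ)).re :=
    ((cont_pt hAd hr').norm.pow 2).mul (Complex.continuous_re.comp (cont_pt hWd hr'))
  have cV2 : Continuous fun θ : ℝ => Real.cos (τ * (Real.pi / 2)) *
      Real.exp ((t * (G (pt r θ) + E (pt r θ))).re + (J (pt r θ)).re) := continuous_const.mul cV
  have h3 : Real.cos (τ * (Real.pi / 2)) * ∫ θ in (0 : ℝ)..(2 * Real.pi),
      Real.exp ((t * (G (pt r θ) + E (pt r θ))).re + (J (pt r θ)).re) ≤ M r := by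
    rw [← intervalIntegral.integral_const_mul]
    exact intervalIntegral.integral_mono_on (by positivity)
      (cV2.intervalIntegrable _ _) (cM.intervalIntegrable _ _)
      (fun θ _ => hlow _ (mem_pt hr' θ))
  rw [inv_mul_eq_div, le_div_iff₀ hcos0, mul_comm]
  refine (h3.trans h1).trans ?_
  have hr1 : 0 < 1 - r := by linarith [hr.2]
  have hr2 : 0 < 1 + r := by linarith [hr.1]
  apply mul_le_mul_of_nonneg_left _ (Real.rpow_nonneg (by positivity) _)
  linarith

end Pool.Agent.H7.SM
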